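import Pool.Agent.Helper25.AE.SD

/-!
# Project FQ (MP_0f6f3f_an), end layer, piece P3: from the scale lemma to the Cartan integers

`cart_of_diag`: `b A` and `b A'` diagonal, `A`, `A'` with diagonal `2`: `A = A'`. `hC_of_scale`: the hypothesis `hC` of `ae_final` from the scale lemma
(helper82, helper83): the fundamental sizes `∑ i, b u i * f i (c i)` of `w_u ^ N l` are `m N + O(1)` uniformly in `l = exp h`, `h` in the dominant cone of the span of the coroots `≠ u`.
-/

set_option autoImplicit false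

namespace Pool.Agent.Helper95.FQ

open Matrix Filter

section mat

variable {ι : Type} [Fintype ι] [DecidableEq ι]

theorem cart_of_diag (b A A' : Matrix ι ι ℝ) (x x' : ι → ℝ) (h : b * A = diagonal x) (h' : b * A' = diagonal x') (hx' : ∀ i, x' i ≠ 0)
    (hd : ∀ i, A i i = 2) (hd' : ∀ i, A' i i = 2) : A = A' := by
  have hb : IsUnit b.det := by
    have h1 : b.det * A'.det = ∏ i, x' i := by rw [← det_mul, h', det_diagonal]
    have h2 : ∏ i, x' i ≠ 0 := Finset.prod_ne_zero_iff.2 fun i _ => hx' i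
    rw [← h1] at h2
    exact isUnit_iff_ne_zero.2 (left_ne_zero_of_mul h2)
  have e : A = b⁻¹ * diagonal x := by rw [← h, ← Matrix.mul_assoc, nonsing_inv_mul _ hb, Matrix.one_mul]
  have e' : A' = b⁻¹ * diagonal x' := by rw [← h', ← Matrix.mul_assoc, nonsing_inv_mul _ hb, Matrix.one_mul]
  have hx : x = x' := by
    funext i
    have h1 := hd i
    have h2 := hd' i
    rw [e, mul_diagonal] at h1
    rw [e', mul_diagonal] at h2
    have h3 : b⁻¹ i i ≠ 0 := by
      intro h0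
      rw [h0, zero_mul] at h1
      norm_num at h1
    exact mul_left_cancel₀ h3 (h1.trans h2.symm)
  rw [e, e', hx]

end mat

section sd

open Pool.Agent.Helper96.SA Pool.Agent.Helper96.TO Pool.Agent.Helper69.SLN Pool.Agent.Helper77.TZ2 Pool.Agent.Helper77.LA
  Pool.Agent.Helper77.AE Pool.Agent.Helper77.ST Pool.Agent.Helper95.AE Pool.Agent.Helper25.AE

variable {L : Type} [LieRing L] [LieAlgebra ℝ L] {N : ℕ} {θ : L ≃ₗ⁅ℝ⁆ L} {b : Module.Basis (Fin N) ℝ L} {A : Submodule ℝ L}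
  {τ : Module.Dual ℝ A ≃ₗ[ℝ] A} {ι : Type} [Fintype ι] [DecidableEq ι] {al : ι → Module.Dual ℝ A}

/-- Every vector of values of the simple roots `≠ u` is attained in the span of the coroots `≠ u`. -/
theorem exists_val (s : SD θ b A τ al) (u : ι) (v : ι → ℝ) :
    ∃ r : {k : ι // k ≠ u} → ℝ, ∀ i, i ≠ u → al i (∑ k, r k • τ (al k)) = v i := by
  set Λ : ({k : ι // k ≠ u} → ℝ) →ₗ[ℝ] ({k : ι // k ≠ u} → ℝ) :=
    { toFun := fun r i => al i (∑ k, r k • τ (al k))
      map_add' := fun r r' => by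
        funext i
        simp only [Pi.add_apply, add_smul, Finset.sum_add_distrib, map_add]
      map_smul' := fun c r => by
        funext i
        simp only [Pi.smul_apply, smul_eq_mul, mul_smul, RingHom.id_apply, ← Finset.smul_sum, map_smul] } with hΛ
  have hinj : Function.Injective Λ := by
    rw [injective_iff_map_eq_zero]
    intro r hr
    have h1 : ∀ i : {k : ι // k ≠ u}, al i (∑ k, r k • τ (al k)) = 0 := fun i => congrFun hr i
    set φ : Module.Dual ℝ A := ∑ k, r k • al (k : ι) with hφ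
    have h2 : τ φ = ∑ k, r k • τ (al k) := by rw [hφ, map_sum]; simp_rw [map_smul]
    have h3 : φ (τ φ) = 0 := by
      rw [h2]
      conv_lhs => rw [hφ]
      rw [LinearMap.sum_apply]
      exact Finset.sum_eq_zero fun i _ => by rw [LinearMap.smul_apply, h1 i, smul_zero]
    have h4 : φ = 0 := by
      by_contra h0
      exact (tau_pos s.hτ s.h s.hA h0).ne' h3
    have h5 : LinearIndependent ℝ fun k : {k : ι // k ≠ u} => al (k : ι) := s.li.comp _ Subtype.val_injective
    funext k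
    exact (Fintype.linearIndependent_iff.1 h5) r (by rw [← hφ, h4]) k
  obtain ⟨r, hr⟩ := (LinearMap.injective_iff_surjective.1 hinj) fun k => v k
  exact ⟨r, fun i hi => congrFun hr ⟨i, hi⟩⟩

variable {L' : Type} [LieRing L'] [LieAlgebra ℝ L'] {N' : ℕ} {θ' : L' ≃ₗ⁅ℝ⁆ L'} {b' : Module.Basis (Fin N') ℝ L'} {A' : Submodule ℝ L'}
  {τ' : Module.Dual ℝ A' ≃ₗ[ℝ] A'} {al' : ι → Module.Dual ℝ A'}

theorem zero_of_bdd {x C : ℝ} (h : ∀ t : ℝ, 0 ≤ t → |t * x| ≤ C) : x = 0 := by
  by_contra h0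
  have h1 : 0 < |x| := abs_pos.2 h0
  have h2 : 0 ≤ C := le_trans (abs_nonneg _) (h 0 le_rfl)
  have h3 := h ((C + 1) / |x|) (by positivity)
  rw [abs_mul, abs_of_nonneg (by positivity : (0 : ℝ) ≤ (C + 1) / |x|), div_mul_cancel₀ _ h1.ne'] at h3
  linarith

/-- The scale lemma at one node `u`: the functional `∑ β i al i` vanishes on the coroots `≠ u`. -/
theorem scale_zero (s : SD θ b A τ al) (u : ι) (f : ι → ℝ → ℝ) (D : ℝ) (hf : ∀ i t, 0 ≤ t → |f i t - t| ≤ D) (β : ι → ℝ)
    {l : Filter ℕ} [l.NeBot] (hl : l ≤ atTop) (m : ℕ → ℝ) (C : ℝ)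
    (h : ∀ a : A, (∃ r : {k : ι // k ≠ u} → ℝ, a = ∑ k, r k • τ (al k)) → (∀ i, i ≠ u → 0 ≤ al i a) →
      ∀ᶠ n : ℕ in l, |∑ i, β i * f i (al i a + if i = u then (n : ℝ) else 0) - m n| ≤ C) {k : ι} (hk : k ≠ u) :
    ∑ i, β i * al i (τ (al k)) = 0 := by
  set B : ℝ := ∑ i, |β i| * D with hB
  -- the functional
  set ψ : A → ℝ := fun a => ∑ i, β i * al i a with hψ
  have hψs : ∀ (t : ℝ) (a : A), ψ (t • a) = t * ψ a := by
    intro t a
    rw [hψ]
    simp only [map_smul, smul_eq_mul, Finset.mul_sum]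
    exact Finset.sum_congr rfl fun i _ => by ring
  have hψa : ∀ a a' : A, ψ (a + a') = ψ a + ψ a' := by
    intro a a'
    rw [hψ]
    simp only [map_add, mul_add, Finset.sum_add_distrib]
  have h1 : ∀ a : A, (∃ r : {k : ι // k ≠ u} → ℝ, a = ∑ k, r k • τ (al k)) → (∀ i, i ≠ u → 0 ≤ al i a) →
      ∀ᶠ n : ℕ in l, |ψ a + β u * n - m n| ≤ C + B := by
    intro a ha ha0
    have h2 : ∀ᶠ n : ℕ in l, -al u a ≤ n := by
      have : Tendsto (fun n : ℕ => (n : ℝ)) l atTop := tendsto_natCast_atTop_atTop.mono_left hl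
      exact this.eventually (eventually_ge_atTop _)
    filter_upwards [h a ha ha0, h2] with n hn hn2
    have h3 : ∀ i, 0 ≤ al i a + if i = u then (n : ℝ) else 0 := by
      intro i
      by_cases hi : i = u
      · rw [if_pos hi, hi]
        linarith
      · rw [if_neg hi, add_zero]
        exact ha0 i hi
    have h4 : ψ a + β u * n = ∑ i, β i * (al i a + if i = u then (n : ℝ) else 0) := by
      simp only [hψ, mul_add, Finset.sum_add_distrib, mul_ite, mul_zero, Finset.sum_ite_eq', Finset.mem_univ, if_true]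
    have h5 : |∑ i, β i * (al i a + if i = u then (n : ℝ) else 0) - ∑ i, β i * f i (al i a + if i = u then (n : ℝ) else 0)| ≤ B := by
      rw [← Finset.sum_sub_distrib]
      refine (Finset.abs_sum_le_sum_abs _ _).trans (Finset.sum_le_sum fun i _ => ?_)
      rw [← mul_sub, abs_mul]
      refine mul_le_mul_of_nonneg_left ?_ (abs_nonneg _)
      rw [abs_sub_comm]
      exact hf i _ (h3 i)
    rw [h4]
    have h6 := abs_sub_le (∑ i, β i * (al i a + if i = u then (n : ℝ) else 0)) (∑ i, β i * f i (al i a + if i = u then (n : ℝ) else 0)) (m n)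
    linarith
  have h2 : ∀ a : A, (∃ r : {k : ι // k ≠ u} → ℝ, a = ∑ k, r k • τ (al k)) → (∀ i, i ≠ u → 0 ≤ al i a) → ψ a = 0 := by
    intro a ha ha0
    refine zero_of_bdd (C := 2 * (C + B)) fun t ht => ?_
    obtain ⟨r, hr⟩ := ha
    obtain ⟨n, hn, hn0⟩ := ((h1 (t • a) ⟨t • r, by rw [hr, Finset.smul_sum]; simp_rw [Pi.smul_apply, smul_eq_mul, mul_smul]⟩
      (fun i hi => by rw [map_smul, smul_eq_mul]; exact mul_nonneg ht (ha0 i hi))).and (h1 0 ⟨0, by simp⟩ (fun i _ => by simp))).exists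
    rw [hψs] at hn
    have h3 : ψ 0 = 0 := by simp [hψ]
    rw [h3, zero_add] at hn0
    have h4 := abs_sub_le (t * ψ a) (m n - β u * n) 0
    have e1 : t * ψ a + β u * n - m n = t * ψ a - (m n - β u * n) := by ring
    have e2 : |β u * (n : ℝ) - m n| = |m n - β u * n - 0| := by rw [sub_zero, abs_sub_comm]
    rw [e1] at hn
    rw [e2] at hn0
    rw [sub_zero] at h4
    linarith
  obtain ⟨r0, hr0⟩ := exists_val s u fun _ => 1
  set h0 : A := ∑ k, r0 k • τ (al k) with hh0
  set M : ℝ := ∑ i, |al i (τ (al k))| with hM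
  have hMi : ∀ i, |al i (τ (al k))| ≤ M := fun i => Finset.single_le_sum (f := fun i => |al i (τ (al k))|) (fun i _ => abs_nonneg _) (Finset.mem_univ i)
  have hM0 : 0 ≤ M := Finset.sum_nonneg fun i _ => abs_nonneg _
  have h3 := h2 h0 ⟨r0, rfl⟩ fun i hi => by rw [hr0 i hi]; exact zero_le_one
  have h4 := h2 (M • h0 + τ (al k)) ⟨fun j => M * r0 j + if j = ⟨k, hk⟩ then 1 else 0, by
      simp_rw [add_smul, Finset.sum_add_distrib, mul_smul, ← Finset.smul_sum, ite_smul, one_smul, zero_smul, Finset.sum_ite_eq',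
        Finset.mem_univ, if_true]
      rw [← hh0]⟩ fun i hi => by
    rw [map_add, map_smul, hr0 i hi, smul_eq_mul, mul_one]
    have := neg_le_of_abs_le (hMi i)
    linarith
  rw [hψa, hψs, h3, mul_zero, zero_add] at h4
  exact h4

/-- **The Cartan integers from the scale lemma.** `∑ β u i al' i` is a multiple of the fundamental weight of the node `u`. -/
theorem hC_of_scale (s : SD θ b A τ al) (s' : SD θ' b' A' τ' al') (f : ι → ℝ → ℝ) (D : ℝ) (hf : ∀ i t, 0 ≤ t → |f i t - t| ≤ D)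
    (β : ι → ι → ℝ) (hβ : ∀ u k, k ≠ u → ∑ i, β u i * al' i (τ' (al' k)) = 0) (hβ0 : ∀ u, ∑ i, β u i * al' i (τ' (al' u)) ≠ 0)
    (h : ∀ u, ∃ l : Filter ℕ, l.NeBot ∧ l ≤ atTop ∧ ∃ (m : ℕ → ℝ) (C : ℝ), ∀ a : A, (∃ r : {k : ι // k ≠ u} → ℝ, a = ∑ k, r k • τ (al k)) →
      (∀ i, i ≠ u → 0 ≤ al i a) → ∀ᶠ n : ℕ in l, |∑ i, β u i * f i (al i a + if i = u then (n : ℝ) else 0) - m n| ≤ C) :
    ∀ i j, al j (τ (al i)) * al' i (τ' (al' i)) = al' j (τ' (al' i)) * al i (τ (al i)) := by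
  have h1 : ∀ u k, k ≠ u → ∑ i, β u i * al i (τ (al k)) = 0 := by
    intro u k hk
    obtain ⟨l, hl, hl2, m, C, h2⟩ := h u
    exact scale_zero s u f D hf (β u) hl2 m C h2 hk
  set a : Matrix ι ι ℝ := fun i k => 2 * al i (τ (al k)) / al k (τ (al k)) with ha
  set a' : Matrix ι ι ℝ := fun i k => 2 * al' i (τ' (al' k)) / al' k (τ' (al' k)) with ha'
  have hmul : ∀ (v : Matrix ι ι ℝ) u k, (∑ i, β u i * (2 * v i k / v k k)) = 2 / v k k * ∑ i, β u i * v i k := by
    intro v u k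
    rw [Finset.mul_sum]
    exact Finset.sum_congr rfl fun i _ => by ring
  have e1 : (Matrix.of β) * a = diagonal fun k => 2 / al k (τ (al k)) * ∑ i, β k i * al i (τ (al k)) := by
    ext u k
    rw [mul_apply, diagonal_apply]
    change (∑ i, β u i * (2 * al i (τ (al k)) / al k (τ (al k)))) = _
    rw [hmul (fun i k => al i (τ (al k))) u k]
    by_cases hk : u = k
    · rw [if_pos hk, hk]
    · rw [if_neg hk, h1 u k (Ne.symm hk), mul_zero]
  have e2 : (Matrix.of β) * a' = diagonal fun k => 2 / al' k (τ' (al' k)) * ∑ i, β k i * al' i (τ' (al' k)) := by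
    ext u k
    rw [mul_apply, diagonal_apply]
    change (∑ i, β u i * (2 * al' i (τ' (al' k)) / al' k (τ' (al' k)))) = _
    rw [hmul (fun i k => al' i (τ' (al' k))) u k]
    by_cases hk : u = k
    · rw [if_pos hk, hk]
    · rw [if_neg hk, hβ u k (Ne.symm hk), mul_zero]
  have hp : ∀ i, al i (τ (al i)) ≠ 0 := fun i => (s.pos i).ne'
  have hp' : ∀ i, al' i (τ' (al' i)) ≠ 0 := fun i => (s'.pos i).ne'
  have e3 : a = a' := cart_of_diag _ a a' _ _ e1 e2 (fun i => mul_ne_zero (div_ne_zero two_ne_zero (hp' i)) (hβ0 i))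
    (fun i => by rw [ha]; exact mul_div_cancel_right₀ 2 (hp i)) (fun i => by rw [ha']; exact mul_div_cancel_right₀ 2 (hp' i))
  intro i j
  have h2 : a j i = a' j i := by rw [e3]
  rw [ha, ha'] at h2
  change 2 * al j (τ (al i)) / al i (τ (al i)) = 2 * al' j (τ' (al' i)) / al' i (τ' (al' i)) at h2
  rw [div_eq_div_iff (hp i) (hp' i)] at h2
  linarith

end sd

end Pool.Agent.Helper95.FQ
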