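import Pool.Agent.Helper8.EQ.One

/-!
# Project FQ (MP_0f6f3f_an), layer EQ5: the size of the image

`Cen.size`: `x ∈ J` integrable, `ζ` a unit vector. There is a compact set `B ⊆ S2` such that: if `s ω = g ω` and the density `h ↦ ‖α_h(x) V(s) ζ‖²` has 3/4 of its mass on the closed set `X`, then `g ∈ B X B`.
(Joint law of the position in `Ω` and of the density: its mass on the invariant set of the pairs (position far from the density) is the same for all unit vectors, by ergodicity.)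
-/

set_option autoImplicit false
set_option linter.unusedSectionVars false

open MeasureTheory Filter Topology
open scoped ENNReal Pointwise

namespace Pool.Agent.Helper95.FQ

open Pool.Agent.Helper43.TZ Pool.Agent.Helper96.TZ Pool.Agent.Helper8.EQ

variable {S1 S2 H : Type} [Group S1] [TopologicalSpace S1] [IsTopologicalGroup S1] [Group S2] [TopologicalSpace S2] [IsTopologicalGroup S2]
  [LocallyCompactSpace S2] [SecondCountableTopology S2] [T2Space S2] [MeasurableSpace S2] [BorelSpace S2]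
  {μ : Measure S2} [μ.IsHaarMeasure] [NormedAddCommGroup H] [InnerProductSpace ℂ H] [CompleteSpace H]
  {A : Set (H →L[ℂ] H)} {Ω : Type} [TopologicalSpace Ω] [CompactSpace Ω] [T2Space Ω]

theorem sq_integrable (L : Lev S1 S2 H μ) {x : H →L[ℂ] H} (hx : L.I2 x) (ξ : H) : Integrable (fun h => ‖cj (L.W h) x ξ‖ ^ 2) μ :=
  (memLp_two_iff_integrable_sq_norm (continuous_cj L x ξ).aestronglyMeasurable).1 (memLp_cj L hx ξ)

/-- A compact set carrying a closed set up to `ε`. -/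
theorem exists_cpt (L : Lev S1 S2 H μ) {x : H →L[ℂ] H} (hx : L.I2 x) (ξ : H) {X : Set S2} (hX : IsClosed X) {ε : ℝ} (hε : 0 < ε) :
    ∃ X' : Set S2, IsCompact X' ∧ X' ⊆ X ∧ ∫ h in X, ‖cj (L.W h) x ξ‖ ^ 2 ∂μ - ε < ∫ h in X', ‖cj (L.W h) x ξ‖ ^ 2 ∂μ := by
  set E := CompactExhaustion.choice S2
  have h2 := tendsto_setIntegral_of_monotone (μ := μ) (f := fun h => ‖cj (L.W h) x ξ‖ ^ 2) (s := fun j => X ∩ E j)
    (fun j => (hX.inter (E.isCompact j).isClosed).measurableSet)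
    (fun j k hjk => Set.inter_subset_inter_right _ (E.subset hjk)) (sq_integrable L hx ξ).integrableOn
  have h3 : ⋃ j, X ∩ E j = X := by rw [← Set.inter_iUnion, E.iUnion_eq, Set.inter_univ]
  rw [h3] at h2
  obtain ⟨j, hj⟩ := (h2.eventually (Ioi_mem_nhds (show ∫ h in X, ‖cj (L.W h) x ξ‖ ^ 2 ∂μ - ε < ∫ h in X, ‖cj (L.W h) x ξ‖ ^ 2 ∂μ by linarith))).exists
  exact ⟨X ∩ E j, (E.isCompact j).inter_left hX, Set.inter_subset_left, hj⟩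

theorem fn_le_sq (L : Lev S1 S2 H μ) (G : GF L.V L.W A Ω) {f : C(Ω, ℝ)} (f1 : f ≤ 1) (y : H) : G.fn y f ≤ ‖y‖ ^ 2 := by
  have h1 := G.mono f1 y
  rw [G.one_apply, ips'] at h1
  exact h1

theorem size (L : Lev S1 S2 H μ) (G : GF L.V L.W A Ω) (hA : ∀ a ∈ A, a ∈ L.Z) {ω : Ω} (hω : Cen L G ω) (hst : ∀ h, G.a₂ h ω = ω → h = 1)
    {x : H →L[ℂ] H} (hxJ : x ∈ L.J) (hx : L.I2 x) {c₀ : ℝ} (hc₀ : 0 < c₀) (hc : ∀ ξ, ∫ h, ‖cj (L.W h) x ξ‖ ^ 2 ∂μ = c₀ * ‖ξ‖ ^ 2)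
    {ζ : H} (hζ : ‖ζ‖ = 1) :
    ∃ B : Set S2, IsCompact B ∧ ∀ (s : S1) (g : S2) (X : Set S2), IsClosed X → G.a₁ s ω = G.a₂ g ω →
      3 / 4 * c₀ ≤ ∫ h in X, ‖cj (L.W h) x (L.V s ζ)‖ ^ 2 ∂μ → ∃ b ∈ B, ∃ y ∈ X, ∃ b' ∈ B, g = b * y * b' := by
  have hinj : ∀ g h, G.a₂ g ω = G.a₂ h ω → g = h := by
    intro g h e
    have k1 : G.a₂ (h⁻¹ * g) ω = ω := by rw [G.mul₂, e, ← G.mul₂, inv_mul_cancel, G.one₂]
    have k2 := hst _ k1
    rw [inv_mul_eq_one] at k2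
    exact k2.symm
  have hoc : Continuous fun h : S2 => G.a₂ h ω := G.cont₂.comp (Continuous.prodMk continuous_id continuous_const)
  -- the compact sets
  obtain ⟨B₁, hB₁, -, hB₁m⟩ := exists_cpt L hx ζ isClosed_univ (show (0 : ℝ) < c₀ / 8 by positivity)
  rw [Measure.restrict_univ, hc, hζ, one_pow, mul_one] at hB₁m
  have hB₁c : ∫ h in B₁ᶜ, ‖cj (L.W h) x ζ‖ ^ 2 ∂μ ≤ c₀ / 8 := by
    have k1 := integral_add_compl hB₁.isClosed.measurableSet (sq_integrable L hx ζ)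
    rw [hc, hζ, one_pow, mul_one] at k1
    linarith
  set m₁ : ℝ := (μ B₁).toReal with hm₁
  have hm₁0 : 0 ≤ m₁ := ENNReal.toReal_nonneg
  have hnx : ∀ h ξ, ‖cj (L.W h) x ξ‖ ≤ ‖x‖ * ‖ξ‖ := fun h ξ => ((cj (L.W h) x).le_opNorm ξ).trans
    (mul_le_mul_of_nonneg_right (norm_cj_le _ _) (norm_nonneg _))
  set K : Set H := (fun h => ((‖x‖ + 1 : ℝ) : ℂ)⁻¹ • cj (L.W h) x ζ) '' B₁ with hK
  have hKc : IsCompact K := hB₁.image ((continuous_cj L x ζ).const_smul _)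
  have hx1 : 0 < ‖x‖ + 1 := by positivity
  obtain ⟨B₂, hB₂, h2⟩ := hω K hKc (by
    rintro v ⟨h, -, rfl⟩
    change ‖((‖x‖ + 1 : ℝ) : ℂ)⁻¹ • cj (L.W h) x ζ‖ ≤ 1
    rw [norm_smul, norm_inv, Complex.norm_real, Real.norm_of_nonneg hx1.le, inv_mul_le_iff₀ hx1, mul_one]
    have := hnx h ζ
    rw [hζ, mul_one] at this
    linarith) (c₀ / (8 * ((‖x‖ + 1) ^ 2 * (m₁ + 1)))) (by positivity)
  obtain ⟨B₃, hB₃, h3⟩ := hω {ζ} isCompact_singleton (fun w hw => by rw [Set.mem_singleton_iff.1 hw, hζ]) (1 / 8) (by norm_num)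
  refine ⟨B₃⁻¹ ∪ B₁⁻¹ * B₂, hB₃.inv.union (hB₁.inv.mul hB₂), fun s g X hX hs hm => ?_⟩
  by_contra hcon
  push Not at hcon
  obtain ⟨X', hX', hXX, hm'⟩ := exists_cpt L hx (L.V s ζ) hX (show (0 : ℝ) < c₀ / 8 by positivity)
  have hne : X'.Nonempty := by
    by_contra h0
    rw [Set.not_nonempty_iff_eq_empty] at h0
    rw [h0, Measure.restrict_empty, integral_zero_measure] at hm'
    linarith
  -- Urysohn
  set C₁ : Set Ω := (fun h : S2 => G.a₂ h ω) '' (B₁⁻¹ * B₂) with hC₁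
  set C₂ : Set Ω := (fun h : S2 => G.a₂ h ω) '' ((fun h => h * g) '' (X'⁻¹ * B₃)) with hC₂
  have hC₁c : IsCompact C₁ := (hB₁.inv.mul hB₂).image hoc
  have hC₂c : IsCompact C₂ := ((hX'.inv.mul hB₃).image (continuous_mul_const _)).image hoc
  have hdis : Disjoint C₁ C₂ := by
    rw [Set.disjoint_left]
    rintro ω' ⟨p, hp, rfl⟩ ⟨-, ⟨q, hq, rfl⟩, hpq⟩
    obtain ⟨y, hy, b, hb, rfl⟩ := Set.mem_mul.1 hq
    have k1 : y * b * g = p := hinj _ _ hpq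
    refine hcon b⁻¹ (Or.inl (Set.inv_mem_inv.2 hb)) y⁻¹ (hXX (Set.mem_inv.1 hy)) p (Or.inr hp) ?_
    rw [← k1]
    group
  obtain ⟨F, hF1, hF2, hF3⟩ := exists_continuous_zero_one_of_isClosed hC₁c.isClosed hC₂c.isClosed hdis
  have F0 : 0 ≤ F := fun ω' => (hF3 ω').1
  have F1 : F ≤ 1 := fun ω' => (hF3 ω').2
  have hFn : ∀ h : S2, 0 ≤ tr L G h F := fun h ω' => F0 (G.a₂ h ω')
  have hFn1 : ∀ h : S2, tr L G h F ≤ 1 := fun h ω' => F1 (G.a₂ h ω')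
  obtain ⟨M, hM⟩ := exists_mass L G hA hxJ hx F
  have hint := Kf_integrable L G hx F
  -- the upper bound
  have hup : M ≤ c₀ / 4 := by
    have k1 := hM ζ
    rw [hζ, one_pow, mul_one] at k1
    rw [← k1, ← integral_add_compl hB₁.isClosed.measurableSet (hint ζ)]
    have k2 : ∫ h in B₁, Kf L G x F ζ h ∂μ ≤ c₀ / 8 := by
      have k3 : ∀ h ∈ B₁, Kf L G x F ζ h ≤ c₀ / (8 * (m₁ + 1)) := by
        intro h hh
        rw [Kf_eq]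
        have k4 := h2 _ ⟨h, hh, rfl⟩ (tr L G h⁻¹ F) 0 (hFn _) le_rfl fun b hb => by
          rw [tr_apply, ← G.mul₂]
          exact (hF1 ⟨h⁻¹ * b, Set.mul_mem_mul (Set.inv_mem_inv.2 hh) hb, rfl⟩).le
        have k5 : G.fn (((‖x‖ + 1 : ℝ) : ℂ)⁻¹ • cj (L.W h) x ζ) (tr L G h⁻¹ F) = ((‖x‖ + 1) ^ 2)⁻¹ * G.fn (cj (L.W h) x ζ) (tr L G h⁻¹ F) := by
          rw [GF.fn_apply, GF.fn_apply, map_smul, inner_smul_left, inner_smul_right, ← mul_assoc, map_inv₀, Complex.conj_ofReal,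
            ← Complex.ofReal_inv, ← Complex.ofReal_mul, Complex.re_ofReal_mul, ← mul_inv, ← sq]
        have k6 : ‖tr L G h⁻¹ F‖ ≤ 1 := norm_le_one (hFn _) (hFn1 _)
        change G.fn (((‖x‖ + 1 : ℝ) : ℂ)⁻¹ • cj (L.W h) x ζ) (tr L G h⁻¹ F) ≤ _ at k4
        rw [k5] at k4
        have k7 : c₀ / (8 * ((‖x‖ + 1) ^ 2 * (m₁ + 1))) * ‖tr L G h⁻¹ F‖ ≤ c₀ / (8 * ((‖x‖ + 1) ^ 2 * (m₁ + 1))) * 1 := by gcongr
        have k8 : ((‖x‖ + 1) ^ 2)⁻¹ * G.fn (cj (L.W h) x ζ) (tr L G h⁻¹ F) ≤ c₀ / (8 * ((‖x‖ + 1) ^ 2 * (m₁ + 1))) := by linarith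
        rw [inv_mul_le_iff₀ (by positivity)] at k8
        refine k8.trans (le_of_eq ?_)
        field_simp
      have k4 := setIntegral_mono_on (hint ζ).integrableOn (integrableOn_const (μ := μ) (s := B₁) (C := c₀ / (8 * (m₁ + 1))) hB₁.measure_lt_top.ne)
        hB₁.isClosed.measurableSet k3
      rw [setIntegral_const, smul_eq_mul] at k4
      refine k4.trans ?_
      change (μ B₁).toReal * _ ≤ _
      rw [← hm₁]
      calc m₁ * (c₀ / (8 * (m₁ + 1))) ≤ (m₁ + 1) * (c₀ / (8 * (m₁ + 1))) := by gcongr; linarith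
        _ = c₀ / 8 := by field_simp
    have k3 : ∫ h in B₁ᶜ, Kf L G x F ζ h ∂μ ≤ c₀ / 8 := by
      refine le_trans (setIntegral_mono (hint ζ).integrableOn (sq_integrable L hx ζ).integrableOn fun h => ?_) hB₁c
      rw [Kf_eq]
      exact fn_le_sq L G (hFn1 _) _
    linarith
  -- the supremum
  set P : Ω → S2 → ℝ := fun ω' h => 1 - F (G.a₂ h⁻¹ ω') with hP
  have hPc : Continuous fun p : Ω × S2 => P p.1 p.2 :=
    continuous_const.sub (F.continuous.comp (G.cont₂.comp (Continuous.prodMk (continuous_inv.comp continuous_snd) continuous_fst)))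
  set Gs : C(Ω, ℝ) := ⟨fun ω' => sSup (P ω' '' X'), hX'.continuous_sSup hPc⟩ with hGs
  have hPb : ∀ ω' h, P ω' h ≤ 1 := fun ω' h => sub_le_self 1 (F0 _)
  have hP0 : ∀ ω' h, 0 ≤ P ω' h := fun ω' h => sub_nonneg.2 (F1 _)
  have hbdd : ∀ ω', BddAbove (P ω' '' X') := fun ω' => ⟨1, by rintro _ ⟨h, -, rfl⟩; exact hPb ω' h⟩
  have hle : ∀ ω', ∀ h ∈ X', P ω' h ≤ Gs ω' := fun ω' h hh => le_csSup (hbdd ω') ⟨h, hh, rfl⟩
  have Gs0 : 0 ≤ Gs := fun ω' => by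
    obtain ⟨h, hh⟩ := hne
    exact (hP0 ω' h).trans (hle ω' h hh)
  have Gs1 : Gs ≤ 1 := fun ω' => csSup_le (hne.image _) (by rintro _ ⟨h, -, rfl⟩; exact hPb ω' h)
  set ξ : H := L.V s ζ with hξ
  have hξ1 : ‖ξ‖ = 1 := by rw [hξ, LinearIsometryEquiv.norm_map, hζ]
  have hpos : G.fn ξ Gs ≤ 1 / 8 := by
    have k1 : G.fn ξ Gs = G.fn ζ (tr1 L G s Gs) := by
      rw [GF.fn_apply, GF.fn_apply, θ_tr1, cj_apply]
      change (inner ℂ (G.θ Gs (L.V s ζ)) (L.V s ζ) : ℂ).re = (inner ℂ ((L.V s).symm (G.θ Gs (L.V s ζ))) ζ : ℂ).re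
      congr 1
      conv_rhs => rw [← (L.V s).symm_apply_apply ζ]
      rw [LinearIsometryEquiv.inner_map_map, LinearIsometryEquiv.symm_apply_apply]
    rw [k1]
    have k2 := h3 ζ rfl (tr1 L G s Gs) 0 (fun ω' => Gs0 (G.a₁ s ω')) le_rfl fun b hb => by
      rw [tr1_apply, G.comm, hs, ← G.mul₂]
      refine csSup_le (hne.image _) ?_
      rintro _ ⟨h, hh, rfl⟩
      have k3 : F (G.a₂ (h⁻¹ * b * g) ω) = 1 := hF2 ⟨_, ⟨h⁻¹ * b, Set.mul_mem_mul (Set.inv_mem_inv.2 hh) hb, rfl⟩, rfl⟩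
      change 1 - F (G.a₂ h⁻¹ (G.a₂ (b * g) ω)) ≤ 0
      rw [← G.mul₂, ← mul_assoc, k3, sub_self]
    have k4 : ‖tr1 L G s Gs‖ ≤ 1 := norm_le_one (fun ω' => Gs0 (G.a₁ s ω')) (fun ω' => Gs1 (G.a₁ s ω'))
    linarith
  -- the lower bound
  have hlow : c₀ / 2 ≤ M := by
    have k1 := hM ξ
    rw [hξ1, one_pow, mul_one] at k1
    have k2 : ∫ h in X', Kf L G x F ξ h ∂μ ≤ M := by
      rw [← k1]
      exact setIntegral_le_integral (hint ξ) (Eventually.of_forall fun h => Kf_nonneg L G x F0 ξ h)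
    have k3 : ∀ h ∈ X', ‖cj (L.W h) x ξ‖ ^ 2 - ‖cj (L.W h) x (G.θ (rt Gs) ξ)‖ ^ 2 ≤ Kf L G x F ξ h := by
      intro h hh
      have k4 : ‖cj (L.W h) x (G.θ (rt Gs) ξ)‖ ^ 2 = G.fn (cj (L.W h) x ξ) Gs := by
        rw [← mem_Z_comm L (hA _ (G.mem (rt Gs))) (L.RW x hxJ h) ξ, G.norm_rt Gs0]
        rfl
      rw [k4, Kf_eq]
      have k5 : (1 : C(Ω, ℝ)) - Gs ≤ tr L G h⁻¹ F := fun ω' => by
        have := hle ω' h hh
        change 1 - Gs ω' ≤ F (G.a₂ h⁻¹ ω')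
        change 1 - F (G.a₂ h⁻¹ ω') ≤ Gs ω' at this
        linarith
      have k6 := G.mono k5 (cj (L.W h) x ξ)
      rw [← GF.fn_apply, ← GF.fn_apply, map_sub] at k6
      have k7 : G.fn (cj (L.W h) x ξ) 1 = ‖cj (L.W h) x ξ‖ ^ 2 := by rw [GF.fn_apply, G.one_apply, ips']
      rw [k7] at k6
      exact k6
    have i1 := (sq_integrable L hx ξ).integrableOn (s := X')
    have i2 := (sq_integrable L hx (G.θ (rt Gs) ξ)).integrableOn (s := X')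
    have k4 := setIntegral_mono_on (i1.sub i2) (hint ξ).integrableOn hX'.isClosed.measurableSet k3
    have k5 : ∫ h in X', (‖cj (L.W h) x ξ‖ ^ 2 - ‖cj (L.W h) x (G.θ (rt Gs) ξ)‖ ^ 2) ∂μ =
      ∫ h in X', ‖cj (L.W h) x ξ‖ ^ 2 ∂μ - ∫ h in X', ‖cj (L.W h) x (G.θ (rt Gs) ξ)‖ ^ 2 ∂μ := integral_sub i1 i2
    have k6 : ∫ h in X', ‖cj (L.W h) x (G.θ (rt Gs) ξ)‖ ^ 2 ∂μ ≤ c₀ / 8 := by
      refine (setIntegral_le_integral (sq_integrable L hx _) (Eventually.of_forall fun h => sq_nonneg _)).trans ?_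
      rw [hc, G.norm_rt Gs0, ← GF.fn_apply]
      calc c₀ * G.fn ξ Gs ≤ c₀ * (1 / 8) := by gcongr
        _ = c₀ / 8 := by ring
    have k7 : ∫ h in X', (‖cj (L.W h) x ξ‖ ^ 2 - ‖cj (L.W h) x (G.θ (rt Gs) ξ)‖ ^ 2) ∂μ ≤ ∫ h in X', Kf L G x F ξ h ∂μ := k4
    rw [k5] at k7
    linarith
  linarith

/-- The same for arbitrary sets `X`. -/
theorem size' (L : Lev S1 S2 H μ) (G : GF L.V L.W A Ω) (hA : ∀ a ∈ A, a ∈ L.Z) {ω : Ω} (hω : Cen L G ω) (hst : ∀ h, G.a₂ h ω = ω → h = 1)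
    {x : H →L[ℂ] H} (hxJ : x ∈ L.J) (hx : L.I2 x) {c₀ : ℝ} (hc₀ : 0 < c₀) (hc : ∀ ξ, ∫ h, ‖cj (L.W h) x ξ‖ ^ 2 ∂μ = c₀ * ‖ξ‖ ^ 2)
    {ζ : H} (hζ : ‖ζ‖ = 1) :
    ∃ B : Set S2, IsCompact B ∧ ∀ (s : S1) (g : S2) (X : Set S2), G.a₁ s ω = G.a₂ g ω →
      3 / 4 * c₀ ≤ ∫ h in X, ‖cj (L.W h) x (L.V s ζ)‖ ^ 2 ∂μ → ∃ b ∈ B, ∃ y ∈ X, ∃ b' ∈ B, g = b * y * b' := by
  obtain ⟨B, hB, h⟩ := size L G hA hω hst hxJ hx hc₀ hc hζ
  obtain ⟨U, hU, hU1⟩ := exists_compact_mem_nhds (1 : S2)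
  refine ⟨B ∪ U * B, hB.union (hU.mul hB), fun s g X hs hm => ?_⟩
  obtain ⟨b, hb, y, hy, b', hb', hg⟩ := h s g (closure X) isClosed_closure hs (hm.trans (setIntegral_mono_set
    (sq_integrable L hx _).integrableOn (Eventually.of_forall fun h => sq_nonneg _) subset_closure.eventuallyLE))
  obtain ⟨y', hy', hyX⟩ := mem_closure_iff_nhds.1 hy ((fun z => z⁻¹ * y) ⁻¹' U) (by
    have k1 : Continuous fun z : S2 => z⁻¹ * y := continuous_inv.mul continuous_const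
    refine k1.continuousAt.preimage_mem_nhds ?_
    rwa [inv_mul_cancel])
  refine ⟨b, Or.inl hb, y', hyX, y'⁻¹ * y * b', Or.inr (Set.mul_mem_mul hy' hb'), ?_⟩
  rw [hg]
  group

/-- The version with coarse size functions. -/
theorem size_gap (L : Lev S1 S2 H μ) (G : GF L.V L.W A Ω) (hA : ∀ a ∈ A, a ∈ L.Z) {ω : Ω} (hω : Cen L G ω) (hst : ∀ h, G.a₂ h ω = ω → h = 1)
    {x : H →L[ℂ] H} (hxJ : x ∈ L.J) (hx : L.I2 x) {c₀ : ℝ} (hc₀ : 0 < c₀) (hc : ∀ ξ, ∫ h, ‖cj (L.W h) x ξ‖ ^ 2 ∂μ = c₀ * ‖ξ‖ ^ 2)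
    {ζ : H} (hζ : ‖ζ‖ = 1) {κ : Type} (gp : S2 → κ → ℝ)
    (hgp : ∀ B : Set S2, IsCompact B → ∃ C : ℝ, ∀ b ∈ B, ∀ b' ∈ B, ∀ y k, |gp (b * y * b') k - gp y k| ≤ C) (R : ℝ) :
    ∃ C : ℝ, ∀ (s : S1) (g : S2) (c : κ → ℝ), G.a₁ s ω = G.a₂ g ω →
      3 / 4 * c₀ ≤ ∫ h in {h | ∀ k, |gp h k - c k| ≤ R}, ‖cj (L.W h) x (L.V s ζ)‖ ^ 2 ∂μ → ∀ k, |gp g k - c k| ≤ C := by
  obtain ⟨B, hB, h⟩ := size' L G hA hω hst hxJ hx hc₀ hc hζ
  obtain ⟨C, hC⟩ := hgp B hB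
  refine ⟨C + R, fun s g c hs hm k => ?_⟩
  obtain ⟨b, hb, y, hy, b', hb', rfl⟩ := h s g _ hs hm
  have k1 := hC b hb b' hb' y k
  have k2 := hy k
  have k3 := abs_sub_le (gp (b * y * b') k) (gp y k) (c k)
  linarith

end Pool.Agent.Helper95.FQ
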