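import Pool.Agent.Helper35.FP.JL
import Pool.Agent.Helper95.FQ.Siz

/-!
# Project FQ (MP_0f6f3f_an), layer EQ5: the size of the image, model statement

`B : BD geo G S' H U`, `x = aw w` an integrable element of the Levi algebra, `ζ = tau B F x₀`, `F = secK κ`. `model_size`: if the frames of `V s x₀` have their blocks in the box `c` up to `e`, the density `h ↦ ‖α_h(x) V(s) ζ‖²` is in the box up to `ε`.
`eq5`: the element `g` of the block group with `s ω = g ω` has its inverse in the box `c`, up to a constant.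
-/

set_option autoImplicit false
set_option linter.unusedSectionVars false

open Filter Topology MeasureTheory

namespace Pool.Agent.Helper95.FQ

open Pool.Agent.Helper35.FP
open Pool.Agent.Helper43.TZ (cj cj_apply Lev)

variable {𝔾 𝕊 : Type} [Group 𝔾] [TopologicalSpace 𝔾] [IsTopologicalGroup 𝔾] [Group 𝕊] [TopologicalSpace 𝕊] [IsTopologicalGroup 𝕊]
  {𝕂 : Subgroup 𝕊} {geo : Geo 𝔾 𝕊 𝕂} {G S' H U : Type} [Group G] [Group S'] [TopologicalSpace S'] [IsTopologicalGroup S']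
  [NormedAddCommGroup H] [InnerProductSpace ℂ H] [CompleteSpace H]
  [NormedAddCommGroup U] [InnerProductSpace ℂ U] [CompleteSpace U]

variable [MeasurableSpace 𝕊] [BorelSpace 𝕊]
  [SecondCountableTopology 𝕊] [LocallyCompactSpace 𝕊] [T2Space 𝕊] (μ : Measure 𝕊) [μ.IsHaarMeasure] [μ.IsMulRightInvariant]

private theorem norm_sq82 (g : Lp ℂ 2 μ) : ‖g‖ ^ 2 = ∫ s, ‖(g : 𝕊 → ℂ) s‖ ^ 2 ∂μ := by
  have h1 : ((‖g‖ ^ 2 : ℝ) : ℂ) = ((∫ s, ‖(g : 𝕊 → ℂ) s‖ ^ 2 ∂μ : ℝ) : ℂ) := by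
    have h2 : ((‖g‖ ^ 2 : ℝ) : ℂ) = inner ℂ g g := by
      rw [inner_self_eq_norm_sq_to_K]
      push_cast
      rfl
    rw [h2, L2.inner_def, ← integral_complex_ofReal]
    refine integral_congr_ae (Eventually.of_forall fun s => ?_)
    change inner ℂ ((g : 𝕊 → ℂ) s) ((g : 𝕊 → ℂ) s) = ((‖(g : 𝕊 → ℂ) s‖ ^ 2 : ℝ) : ℂ)
    rw [inner_self_eq_norm_sq_to_K]
    push_cast
    rfl
  exact_mod_cast h1

/-- `|w|²`. -/
private noncomputable def sqK82 (w : KW 𝕂) : KW 𝕂 where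
  w s := ((‖w.w s‖ ^ 2 : ℝ) : ℂ)
  cont := Complex.continuous_ofReal.comp (w.cont.norm.pow 2)
  inv k hk s := by rw [w.inv k hk]
  bdd := by
    obtain ⟨C, h0, hC⟩ := w.bdd
    exact ⟨C ^ 2, by positivity, fun s => by
      rw [Complex.norm_real, Real.norm_of_nonneg (by positivity)]
      exact pow_le_pow_left₀ (norm_nonneg _) (hC s) 2⟩

private theorem sqK_cpt82 {w : KW 𝕂} (hw : HasCompactSupport w.w) : HasCompactSupport (sqK82 w).w := by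
  refine HasCompactSupport.intro (K := tsupport w.w) hw fun s hs => ?_
  change ((‖w.w s‖ ^ 2 : ℝ) : ℂ) = 0
  rw [image_eq_zero_of_notMem_tsupport hs]
  simp

private theorem unif82 {v : 𝕊 → ℂ} (hv : Continuous v) (hc : HasCompactSupport v) {ε : ℝ} (hε : 0 < ε) :
    ∀ᶠ u in 𝓝 (1 : 𝕊), ∀ s, ‖v (s * u) - v s‖ ≤ ε := by
  have h1 : ∀ᶠ u in 𝓝 (1 : 𝕊), ∀ s ∈ tsupport v, ‖v (s * u) - v s‖ ≤ ε := by
    refine IsCompact.eventually_forall_of_forall_eventually (hc : IsCompact (tsupport v)) fun s _ => ?_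
    have h2 : Continuous fun z : 𝕊 × 𝕊 => ‖v (z.2 * z.1) - v z.2‖ :=
      ((hv.comp (continuous_snd.mul continuous_fst)).sub (hv.comp continuous_snd)).norm
    have h3 : ‖v (s * 1) - v s‖ < ε := by
      rw [mul_one, sub_self, norm_zero]
      exact hε
    exact ((h2.tendsto ((1 : 𝕊), s)).eventually (gt_mem_nhds h3)).mono fun z hz => le_of_lt hz
  have h4 : ∀ᶠ u in 𝓝 (1 : 𝕊), ∀ s ∈ tsupport v, ‖v (s * u⁻¹) - v s‖ ≤ ε := by
    have h5 : Tendsto (fun u : 𝕊 => u⁻¹) (𝓝 1) (𝓝 1) := by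
      have := continuous_inv.tendsto (1 : 𝕊)
      rwa [inv_one] at this
    exact h5.eventually h1
  filter_upwards [h1, h4] with u hu hu' s
  by_cases hs : s ∈ tsupport v
  · exact hu s hs
  · by_cases hs' : s * u ∈ tsupport v
    · have := hu' _ hs'
      rw [mul_inv_cancel_right] at this
      rwa [norm_sub_rev]
    · rw [image_eq_zero_of_notMem_tsupport hs, image_eq_zero_of_notMem_tsupport hs', sub_zero, norm_zero]
      exact hε.le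

/-- The Banach space of the invariant bounded continuous functions. -/
private def XK82 (𝕂 : Subgroup 𝕊) : Submodule ℂ (BoundedContinuousFunction 𝕊 ℂ) where
  carrier := {φ | ∀ k ∈ 𝕂, ∀ s, φ (k * s) = φ s}
  add_mem' := fun {φ ψ} h h' k hk s => by
    rw [BoundedContinuousFunction.add_apply, BoundedContinuousFunction.add_apply, h k hk, h' k hk]
  zero_mem' := fun k _ s => rfl
  smul_mem' := fun c φ h k hk s => by
    rw [BoundedContinuousFunction.smul_apply, BoundedContinuousFunction.smul_apply, h k hk]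

private instance complete82 : CompleteSpace (XK82 𝕂) := by
  have h1 : IsClosed (XK82 𝕂 : Set (BoundedContinuousFunction 𝕊 ℂ)) := by
    have h2 : (XK82 𝕂 : Set (BoundedContinuousFunction 𝕊 ℂ)) =
        ⋂ k ∈ (𝕂 : Set 𝕊), ⋂ s : 𝕊, {φ : BoundedContinuousFunction 𝕊 ℂ | φ (k * s) = φ s} := by
      ext φ
      rw [Set.mem_iInter₂]
      constructor
      · intro h k hk
        exact Set.mem_iInter.2 fun s => h k hk s
      · intro h k hk s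
        exact Set.mem_iInter.1 (h k hk) s
    rw [h2]
    exact isClosed_biInter fun k _ => isClosed_iInter fun s =>
      isClosed_eq (BoundedContinuousFunction.evalCLM ℂ (k * s)).continuous (BoundedContinuousFunction.evalCLM ℂ s).continuous
  exact h1.completeSpace_coe

private noncomputable def ofX82 (φ : XK82 𝕂) : KW 𝕂 where
  w := φ.1
  cont := φ.1.continuous
  inv := φ.2
  bdd := ⟨‖φ.1‖, norm_nonneg _, φ.1.norm_coe_le_norm⟩

private noncomputable def toX82 (w : KW 𝕂) : XK82 𝕂 :=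
  ⟨BoundedContinuousFunction.ofNormedAddCommGroup w.w w.cont w.bdd.choose w.bdd.choose_spec.2, w.inv⟩

private theorem ofX_toX82 (w : KW 𝕂) : ofX82 (toX82 w) = w := rfl

private theorem toX_cont82 {v : KW 𝕂} (hc : HasCompactSupport v.w) : Continuous fun h => toX82 (v.tr h) := by
  rw [continuous_iff_continuousAt]
  intro h0
  rw [Metric.continuousAt_iff']
  intro ε hε
  have h1 := unif82 v.cont hc (half_pos hε)
  have h2 : Tendsto (fun h : 𝕊 => h0⁻¹ * h) (𝓝 h0) (𝓝 1) := by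
    have := (continuous_const_mul h0⁻¹).tendsto h0
    rwa [inv_mul_cancel] at this
  filter_upwards [h2.eventually h1] with h hh
  rw [Subtype.dist_eq, dist_eq_norm]
  refine lt_of_le_of_lt ?_ (half_lt_self hε)
  rw [BoundedContinuousFunction.norm_le (half_pos hε).le]
  intro s
  have h3 := hh (s * h0)
  rw [mul_assoc, mul_inv_cancel_left] at h3
  exact h3

section J

variable (B : BD geo G S' H U)

private theorem aw_sq82 (w : KW 𝕂) (y : Kt B (lam μ)) : ‖aw μ B w y‖ ^ 2 ≤ (inner ℂ y (aw μ B (sqK82 w) y) : ℂ).re := by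
  refine XiA_sq B (mw_ItK μ w) (mw_ItK μ (sqK82 w)) (fun f f' => ?_) y
  rw [L2.inner_def, L2.inner_def]
  refine integral_congr_ae ?_
  filter_upwards [mw_apply μ w f, mw_apply μ w f', mw_apply μ (sqK82 w) f'] with s h1 h2 h3
  rw [h1, h2, h3, RCLike.inner_apply, RCLike.inner_apply, map_mul]
  have h4 : (sqK82 w).w s = w.w s * (starRingEnd ℂ) (w.w s) := by
    change ((‖w.w s‖ ^ 2 : ℝ) : ℂ) = _
    rw [Complex.mul_conj, Complex.normSq_eq_norm_sq]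
  rw [h4]
  ring

private theorem aw_tr_cont82 {w : KW 𝕂} (hw : HasCompactSupport w.w) : Continuous fun h => aw μ B (w.tr h) := by
  rw [continuous_iff_continuousAt]
  intro h0
  rw [Metric.continuousAt_iff']
  intro ε hε
  have h1 := unif82 w.cont hw (half_pos hε)
  have h2 : Tendsto (fun h : 𝕊 => h0⁻¹ * h) (𝓝 h0) (𝓝 1) := by
    have := (continuous_const_mul h0⁻¹).tendsto h0
    rwa [inv_mul_cancel] at this
  filter_upwards [h2.eventually h1] with h hh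
  rw [dist_eq_norm]
  refine lt_of_le_of_lt (norm_aw_sub μ B _ _ (half_pos hε).le fun s => ?_) (half_lt_self hε)
  have h3 := hh (s * h0)
  rw [mul_assoc, mul_inv_cancel_left] at h3
  exact h3

/-- The functional `φ ↦ ⟪y, aw φ y⟫`. -/
private theorem exists_fun82 (y : Kt B (lam μ)) : ∃ ℓ : XK82 𝕂 →L[ℂ] ℂ, (∀ φ, ℓ φ = inner ℂ y (aw μ B (ofX82 φ) y)) ∧
    ∀ φ, ‖ℓ φ‖ ≤ ‖y‖ ^ 2 * ‖φ‖ := by
  have hb : ∀ φ : XK82 𝕂, ‖(inner ℂ y (aw μ B (ofX82 φ) y) : ℂ)‖ ≤ ‖y‖ ^ 2 * ‖φ‖ := by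
    intro φ
    refine (norm_inner_le_norm _ _).trans ?_
    have h1 : ‖aw μ B (ofX82 φ) y‖ ≤ ‖φ‖ * ‖y‖ :=
      ((aw μ B (ofX82 φ)).le_opNorm y).trans (mul_le_mul_of_nonneg_right
        (norm_aw μ B _ (norm_nonneg _) fun s => φ.1.norm_coe_le_norm s) (norm_nonneg _))
    calc ‖y‖ * ‖aw μ B (ofX82 φ) y‖ ≤ ‖y‖ * (‖φ‖ * ‖y‖) := mul_le_mul_of_nonneg_left h1 (norm_nonneg _)
      _ = ‖y‖ ^ 2 * ‖φ‖ := by ring
  set ℓ0 : XK82 𝕂 →ₗ[ℂ] ℂ :=
    { toFun := fun φ => inner ℂ y (aw μ B (ofX82 φ) y)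
      map_add' := fun φ ψ => by
        have h1 := XiA_add B (mw_ItK μ (ofX82 φ)) (mw_ItK μ (ofX82 ψ)) (mw_ItK μ (ofX82 (φ + ψ))) (fun f => by
          refine Lp.ext ?_
          filter_upwards [mw_apply μ (ofX82 (φ + ψ)) f, mw_apply μ (ofX82 φ) f, mw_apply μ (ofX82 ψ) f,
            Lp.coeFn_add (mw μ (ofX82 φ) f) (mw μ (ofX82 ψ) f)] with s h2 h3 h4 h5
          rw [h2, h5, Pi.add_apply, h3, h4, ← add_mul]
          rfl) y
        change inner ℂ y (XiA B (mw_ItK μ (ofX82 (φ + ψ))) y) = _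
        rw [h1, inner_add_right]
        rfl
      map_smul' := fun c φ => by
        have h1 := XiA_smul B (mw_ItK μ (ofX82 φ)) (mw_ItK μ (ofX82 (c • φ))) c (fun f => by
          refine Lp.ext ?_
          filter_upwards [mw_apply μ (ofX82 (c • φ)) f, mw_apply μ (ofX82 φ) f,
            Lp.coeFn_smul c (mw μ (ofX82 φ) f)] with s h2 h3 h5
          rw [h2, h5, Pi.smul_apply, h3, smul_eq_mul, ← mul_assoc]
          rfl) y
        change inner ℂ y (XiA B (mw_ItK μ (ofX82 (c • φ))) y) = _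
        rw [h1, inner_smul_right]
        rfl }
  exact ⟨ℓ0.mkContinuous (‖y‖ ^ 2) hb, fun _ => rfl, hb⟩

theorem int_aw {w : KW 𝕂} (hw : HasCompactSupport w.w) {C' : Set 𝕊} (hC' : IsCompact C') :
    ∃ v : KW 𝕂, (∀ s, v.w s = ((∫ h in C', ‖w.w (s * h)‖ ^ 2 ∂μ : ℝ) : ℂ)) ∧ (∀ s, ‖v.w s‖ ≤ ∫ s, ‖w.w s‖ ^ 2 ∂μ) ∧
      ∀ y : Kt B (lam μ), ∫ h in C', ‖aw μ B (w.tr h) y‖ ^ 2 ∂μ ≤ (inner ℂ y (aw μ B v y) : ℂ).re := by
  set v := sqK82 w with hv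
  have hvc : HasCompactSupport v.w := sqK_cpt82 hw
  have hvw : ∀ s, v.w s = ((‖w.w s‖ ^ 2 : ℝ) : ℂ) := fun s => rfl
  have hvn : ∀ s, ‖v.w s‖ = ‖w.w s‖ ^ 2 := fun s => by rw [hvw, Complex.norm_real, Real.norm_of_nonneg (by positivity)]
  set I : ℝ := ∫ s, ‖w.w s‖ ^ 2 ∂μ with hI
  have hI' : I = ∫ s, ‖v.w s‖ ∂μ := by simp_rw [hvn]; rfl
  have hI0 : 0 ≤ I := integral_nonneg fun s => sq_nonneg _
  have hvi : Integrable v.w μ := v.cont.integrable_of_hasCompactSupport hvc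
  set F : 𝕊 → XK82 𝕂 := fun h => toX82 (v.tr h) with hF
  have hFc : Continuous F := toX_cont82 hvc
  have hint : IntegrableOn F C' μ := hFc.continuousOn.integrableOn_compact hC'
  set φ : XK82 𝕂 := ∫ h in C', F h ∂μ with hφ
  have hφe : ∀ s, φ.1 s = ∫ h in C', v.w (s * h) ∂μ := by
    intro s
    have h1 := ContinuousLinearMap.integral_comp_comm ((BoundedContinuousFunction.evalCLM ℂ s).comp (XK82 𝕂).subtypeL) hint
    exact h1.symm
  have hφn : ∀ s, ‖φ.1 s‖ ≤ I := by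
    intro s
    rw [hφe, hI']
    refine (norm_integral_le_integral_norm _).trans ?_
    have h1 : Integrable (fun h => ‖v.w (s * h)‖) μ := (hvi.comp_mul_left s).norm
    refine (setIntegral_le_integral h1 (Eventually.of_forall fun h => norm_nonneg _)).trans ?_
    rw [integral_mul_left_eq_self (μ := μ) (fun h => ‖v.w h‖) s]
  refine ⟨ofX82 φ, fun s => ?_, hφn, fun y => ?_⟩
  · change φ.1 s = _
    rw [hφe, ← integral_complex_ofReal]
    rfl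
  obtain ⟨ℓ, hℓ, -⟩ := exists_fun82 μ B y
  have h1 : ∫ h in C', ℓ (F h) ∂μ = ℓ φ := ContinuousLinearMap.integral_comp_comm ℓ hint
  have h2 : IntegrableOn (fun h => ℓ (F h)) C' μ := (ℓ.continuous.comp hFc).continuousOn.integrableOn_compact hC'
  have h3 : ∫ h in C', (ℓ (F h)).re ∂μ = (ℓ φ).re := by
    rw [← h1]
    exact ContinuousLinearMap.integral_comp_comm Complex.reCLM h2
  have h5 : ∀ h, ‖aw μ B (w.tr h) y‖ ^ 2 ≤ (ℓ (F h)).re := by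
    intro h
    rw [hℓ]
    exact aw_sq82 μ B (w.tr h) y
  have h7 : IntegrableOn (fun h => (ℓ (F h)).re) C' μ :=
    (Complex.continuous_re.comp (ℓ.continuous.comp hFc)).continuousOn.integrableOn_compact hC'
  have h8 : IntegrableOn (fun h => ‖aw μ B (w.tr h) y‖ ^ 2) C' μ :=
    ((((ContinuousLinearMap.apply ℂ (Kt B (lam μ)) y).continuous.comp (aw_tr_cont82 μ B hw)).norm).pow 2).continuousOn.integrableOn_compact hC'
  rw [← hℓ φ, ← h3]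
  exact setIntegral_mono h8 h7 h5

/-- The expectation of `aw v` in the vectors `tau F x`. -/
theorem inner_aw_tau (κ : Kap geo) {C : Set 𝕊} (hC : IsCompact C) (hκ : κ.IsC C) (v : KW 𝕂) (x : H) :
    (inner ℂ (tau B (secK μ κ hC hκ) x) (aw μ B v (tau B (secK μ κ hC hκ) x)) : ℂ) =
      inner ℂ (B.T x) (B.E (fun g => inner ℂ ((secK μ κ hC hκ : 𝔾 → Lp ℂ 2 μ) g) (mw μ v ((secK μ κ hC hκ : 𝔾 → Lp ℂ 2 μ) g))) (B.T x)) := by
  have h1 := inner_XiA B (mw_ItK μ v) (secK μ κ hC hκ) (secK μ κ hC hκ) x x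
  rw [B.Xi_apply, ContinuousLinearMap.adjoint_inner_right] at h1
  exact h1

theorem inner_mw (κ : Kap geo) {C : Set 𝕊} (hC : IsCompact C) (hκ : κ.IsC C) (v : KW 𝕂) (vr : 𝕊 → ℝ) (hv : ∀ s, v.w s = (vr s : ℂ)) (g : 𝔾) :
    (inner ℂ ((secK μ κ hC hκ : 𝔾 → Lp ℂ 2 μ) g) (mw μ v ((secK μ κ hC hκ : 𝔾 → Lp ℂ 2 μ) g)) : ℂ) =
      ((∫ s, vr s * ‖κ.k g s‖ ^ 2 ∂μ : ℝ) : ℂ) := by
  rw [L2.inner_def, ← integral_complex_ofReal]
  refine integral_congr_ae ?_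
  filter_upwards [secK_apply μ κ hC hκ g, mw_apply μ v ((secK μ κ hC hκ : 𝔾 → Lp ℂ 2 μ) g)] with s h1 h2
  rw [h2, h1, RCLike.inner_apply, hv, mul_assoc, RCLike.mul_conj]
  push_cast
  rfl

/-- The block of a frame in the support. -/
theorem kap_supp {κ : Kap geo} {C : Set 𝕊} (hκ : κ.IsC C) (g : 𝔾) {s : 𝕊} (h : κ.k g s ≠ 0) : geo.nb (geo.r g) * s ∈ C := by
  by_contra hn
  refine h ?_
  have h1 := κ.inv (g * ((geo.r g : geo.Q) : 𝔾)⁻¹) (geo.r g) s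
  rw [inv_mul_cancel_right] at h1
  rw [h1]
  exact hκ _ (geo.kr g) _ hn

theorem out_small (κ : Kap geo) {C : Set 𝕊} (hC : IsCompact C) (hκ : κ.IsC C) {w : KW 𝕂} (hw : HasCompactSupport w.w) {ε : ℝ} (hε : 0 < ε) :
    ∃ e : ℝ, 0 < e ∧ ∀ (ι : Type) (gp : 𝕊 → ι → ℝ),
      (∀ B : Set 𝕊, IsCompact B → ∃ C : ℝ, ∀ b ∈ B, ∀ b' ∈ B, ∀ y k, |gp (b * y * b') k - gp y k| ≤ C) → ∀ R : ℝ, ∃ R' : ℝ,
      ∀ (x : H) (c : ι → ℝ), (∀ f : 𝔾 → ℂ, Bf geo f → (∀ g, ‖f g‖ ≤ 1) →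
      (∀ g, (∀ k, |gp (geo.nb (geo.r g))⁻¹ k - c k| ≤ R) → f g = 0) → ‖B.E f (B.T x)‖ ≤ e) →
      ∀ X : Set 𝕊, IsCompact X → (∀ h ∈ X, ∃ k, R' < |gp h⁻¹ k - c k|) →
        ∫ h in X, ‖aw μ B (w.tr h) (tau B (secK μ κ hC hκ) x)‖ ^ 2 ∂μ ≤ ε := by
  obtain ⟨D, hD⟩ := Sec.bdd (secK μ κ hC hκ)
  have hD0 : 0 ≤ D := (norm_nonneg _).trans (hD 1)
  set I : ℝ := ∫ s, ‖w.w s‖ ^ 2 ∂μ with hI
  have hI0 : 0 ≤ I := integral_nonneg fun s => sq_nonneg _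
  set M : ℝ := Real.sqrt (I * D ^ 2) + 1 with hM
  have hM0 : 0 < M := by positivity
  have hMI : I * D ^ 2 ≤ M ^ 2 := by
    have h1 := Real.sq_sqrt (show 0 ≤ I * D ^ 2 by positivity)
    have h2 := Real.sqrt_nonneg (I * D ^ 2)
    rw [hM]
    nlinarith
  refine ⟨Real.sqrt ε / M, by positivity, fun ι gp hgp R => ?_⟩
  obtain ⟨C₁, hC₁⟩ := hgp ((tsupport w.w)⁻¹ ∪ C) ((show IsCompact (tsupport w.w) from hw).inv.union hC)
  refine ⟨R + C₁, fun x c hyp X hX hXY => ?_⟩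
  obtain ⟨v, hv, hvI, hint⟩ := int_aw μ B hw hX
  refine (hint _).trans ?_
  set vr : 𝕊 → ℝ := fun s => ∫ h in X, ‖w.w (s * h)‖ ^ 2 ∂μ with hvr
  have hvr0 : ∀ s, 0 ≤ vr s := fun s => integral_nonneg fun h => sq_nonneg _
  set φ : 𝔾 → ℝ := fun g => ∫ s, vr s * ‖κ.k g s‖ ^ 2 ∂μ with hφ
  have hφe : ∀ g, (inner ℂ ((secK μ κ hC hκ : 𝔾 → Lp ℂ 2 μ) g) (mw μ v ((secK μ κ hC hκ : 𝔾 → Lp ℂ 2 μ) g)) : ℂ) = (φ g : ℂ) :=
    fun g => inner_mw μ κ hC hκ v vr hv g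
  have hbf : Bf geo fun g => (φ g : ℂ) := by
    have h1 := bf_ItK (mw_ItK μ v) (secK μ κ hC hκ) (secK μ κ hC hκ)
    simp_rw [hφe] at h1
    exact h1
  have hφ0 : ∀ g, 0 ≤ φ g := fun g => integral_nonneg fun s => mul_nonneg (hvr0 s) (sq_nonneg _)
  have hφM : ∀ g, φ g ≤ M ^ 2 := by
    intro g
    have h1 : ‖(φ g : ℂ)‖ ≤ I * D ^ 2 := by
      rw [← hφe]
      refine (norm_inner_le_norm _ _).trans ?_
      have h2 : ‖mw μ v ((secK μ κ hC hκ : 𝔾 → Lp ℂ 2 μ) g)‖ ≤ I * D :=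
        ((mw μ v).le_opNorm _).trans (mul_le_mul (norm_mw μ v hI0 hvI) (hD g) (norm_nonneg _) hI0)
      calc ‖(secK μ κ hC hκ : 𝔾 → Lp ℂ 2 μ) g‖ * ‖mw μ v ((secK μ κ hC hκ : 𝔾 → Lp ℂ 2 μ) g)‖ ≤ D * (I * D) :=
            mul_le_mul (hD g) h2 (norm_nonneg _) hD0
        _ = I * D ^ 2 := by ring
    rw [Complex.norm_real, Real.norm_of_nonneg (hφ0 g)] at h1
    exact h1.trans hMI
  -- the square root
  set f : 𝔾 → ℂ := fun g => ((Real.sqrt (φ g) / M : ℝ) : ℂ) with hf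
  have hφc : Continuous φ := by
    have h1 : φ = fun g => ((φ g : ℂ)).re := rfl
    rw [h1]
    exact Complex.continuous_re.comp hbf.cont
  have hfb : Bf geo f := ⟨Complex.continuous_ofReal.comp ((Real.continuous_sqrt.comp hφc).div_const M), fun g q hq => by
    have h1 := hbf.inv g q hq
    simp only [Complex.ofReal_inj] at h1
    simp only [hf, h1], 1, fun g => by
    rw [hf, Complex.norm_real, Real.norm_of_nonneg (by positivity), div_le_one hM0, Real.sqrt_le_left hM0.le]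
    exact hφM g⟩
  have hf1 : ∀ g, ‖f g‖ ≤ 1 := fun g => by
    rw [hf, Complex.norm_real, Real.norm_of_nonneg (by positivity), div_le_one hM0, Real.sqrt_le_left hM0.le]
    exact hφM g
  have hf0 : ∀ g, (∀ k, |gp (geo.nb (geo.r g))⁻¹ k - c k| ≤ R) → f g = 0 := by
    intro g hg
    have h1 : φ g = 0 := by
      refine integral_eq_zero_of_ae (Eventually.of_forall fun s => ?_)
      change vr s * ‖κ.k g s‖ ^ 2 = 0
      by_cases hs : κ.k g s = 0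
      · rw [hs, norm_zero]
        ring
      have h2 := kap_supp hκ g hs
      have h3 : vr s = 0 := by
        refine setIntegral_eq_zero_of_forall_eq_zero fun h hh => ?_
        by_cases hwh : w.w (s * h) = 0
        · rw [hwh, norm_zero]
          ring
        exfalso
        have h4 : s * h ∈ tsupport w.w := subset_tsupport _ hwh
        obtain ⟨k, hk⟩ := hXY h hh
        have h5 := hC₁ (s * h)⁻¹ (Or.inl (Set.inv_mem_inv.2 h4)) _ (Or.inr h2) (geo.nb (geo.r g))⁻¹ k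
        have h6 : (s * h)⁻¹ * (geo.nb (geo.r g))⁻¹ * (geo.nb (geo.r g) * s) = h⁻¹ := by group
        rw [h6] at h5
        have h7 := hg k
        have h8 := abs_sub_le (gp h⁻¹ k) (gp (geo.nb (geo.r g))⁻¹ k) (c k)
        linarith
      rw [h3, zero_mul]
    rw [hf]
    simp only [h1, Real.sqrt_zero, zero_div, Complex.ofReal_zero]
  have h1 := hyp f hfb hf1 hf0
  have h2 : (fun g => (inner ℂ ((secK μ κ hC hκ : 𝔾 → Lp ℂ 2 μ) g) (mw μ v ((secK μ κ hC hκ : 𝔾 → Lp ℂ 2 μ) g)) : ℂ)) =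
      fun g => ((M ^ 2 : ℝ) : ℂ) * (f g * f g) := by
    funext g
    rw [hφe, hf]
    simp only
    rw [← Complex.ofReal_mul, ← Complex.ofReal_mul]
    congr 1
    have h3 := Real.mul_self_sqrt (hφ0 g)
    field_simp
    rw [sq, h3]
  have hff : Bf geo fun g => f g * f g := ⟨hfb.cont.mul hfb.cont, fun g q hq => by
    rw [hfb.inv g q hq], 1, fun g => by
    rw [norm_mul]
    exact mul_le_one₀ (hf1 g) (norm_nonneg _) (hf1 g)⟩
  have h3 : (inner ℂ (B.T x) (B.E f (B.E f (B.T x))) : ℂ) = ((‖B.E f (B.T x)‖ ^ 2 : ℝ) : ℂ) := by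
    have h4 := B.E_star f hfb (B.T x) (B.E f (B.T x))
    have h5 : (fun g => (starRingEnd ℂ) (f g)) = f := by
      funext g
      rw [hf]
      exact Complex.conj_ofReal _
    rw [h5] at h4
    rw [← h4, inner_self_eq_norm_sq_to_K]
    push_cast
    rfl
  rw [inner_aw_tau, h2, B.E_smul _ _ hff, B.E_mul f f hfb hfb, inner_smul_right, h3, ← Complex.ofReal_mul, Complex.ofReal_re]
  have h4 : ‖B.E f (B.T x)‖ ^ 2 ≤ (Real.sqrt ε / M) ^ 2 := pow_le_pow_left₀ (norm_nonneg _) h1 2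
  rw [div_pow, Real.sq_sqrt hε.le] at h4
  calc M ^ 2 * ‖B.E f (B.T x)‖ ^ 2 ≤ M ^ 2 * (ε / M ^ 2) := by gcongr
    _ = ε := by field_simp

theorem cj_aw (w : KW 𝕂) (h : 𝕊) (y : Kt B (lam μ)) : cj (WW μ B h) (aw μ B w) y = aw μ B (w.tr h) y := by
  rw [cj_apply, WW_aw, LinearIsometryEquiv.apply_symm_apply]

variable [LocallyCompactSpace 𝔾] [T2Space 𝔾] (hQ : IsClosed (geo.Q : Set 𝔾)) (hK : IsCompact (𝕂 : Set 𝕊))

theorem aw_J (w : KW 𝕂) : aw μ B w ∈ (levOf μ B hQ hK).J := (mem_cent μ B).2 (aw_JJ μ B w)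

theorem aw_I2 {w : KW 𝕂} (hw : HasCompactSupport w.w) : (levOf μ B hQ hK).I2 (aw μ B w) := by
  obtain ⟨C, hC, h⟩ := lintegral_aw μ B w hw
  refine ⟨C.toReal, fun x => ?_⟩
  rw [ENNReal.ofReal_toReal hC]
  have h1 := h x
  convert h1 using 5 with h
  change cj (WW μ B h) (aw μ B w) x = _
  rw [map_inv]
  rfl

/-- **The size of the image.** -/
theorem eq5 {A : Set (Kt B (lam μ) →L[ℂ] Kt B (lam μ))} {Ω : Type} [TopologicalSpace Ω] [CompactSpace Ω] [T2Space Ω]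
    (Gf : Pool.Agent.Helper96.TZ.GF (levOf μ B hQ hK).V (levOf μ B hQ hK).W A Ω) (hA : ∀ a ∈ A, a ∈ (levOf μ B hQ hK).Z) {ω : Ω}
    (hω : Pool.Agent.Helper8.EQ.Cen (levOf μ B hQ hK) Gf ω) (hst : ∀ h, Gf.a₂ h ω = ω → h = 1) :
    ∃ e : ℝ, 0 < e ∧ ∀ (x₀ : H), ‖x₀‖ = 1 → ∀ (ι : Type) (gp : 𝕊 → ι → ℝ),
      (∀ B : Set 𝕊, IsCompact B → ∃ C : ℝ, ∀ b ∈ B, ∀ b' ∈ B, ∀ y k, |gp (b * y * b') k - gp y k| ≤ C) → ∀ R : ℝ,
      ∃ C : ℝ, ∀ (s : S') (g : 𝕊) (c : ι → ℝ), Gf.a₁ s ω = Gf.a₂ g ω →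
      (∀ f : 𝔾 → ℂ, Bf geo f → (∀ g, ‖f g‖ ≤ 1) → (∀ g, (∀ k, |gp (geo.nb (geo.r g))⁻¹ k - c k| ≤ R) → f g = 0) →
        ‖B.E f (B.T (B.V s x₀))‖ ≤ e) → ∀ k, |gp g⁻¹ k - c k| ≤ C := by
  have := nontrivial_Kt μ B hK
  obtain ⟨w, hw, hne⟩ := exists_aw_ne μ B hK
  have hxJ := aw_J μ B hQ hK w
  have hxI := aw_I2 μ B hQ hK hw
  obtain ⟨c₀, hc₀, hc⟩ := Pool.Agent.Helper43.TZ.phi_pos (levOf μ B hQ hK) hxJ hxI hne
  -- the section
  have hwne : ∃ s, w.w s ≠ 0 := by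
    by_contra h0
    push Not at h0
    have h1 := norm_aw μ B w le_rfl fun s => by rw [h0 s, norm_zero]
    exact hne (norm_eq_zero.1 (le_antisymm h1 (norm_nonneg _)))
  have hC : IsCompact (tsupport w.w) := hw
  have hκ := kapO_isC (geo := geo) w.w w.cont w.inv w.bdd (C := tsupport w.w) fun s hs => image_eq_zero_of_notMem_tsupport hs
  set F := secK μ (kapO (geo := geo) w.w w.cont w.inv w.bdd) hC hκ with hF
  set c₁ : ℝ := ∫ s, ‖w.w s‖ ^ 2 ∂μ with hc₁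
  have hFn : ∀ g, (inner ℂ ((F : 𝔾 → Lp ℂ 2 μ) g) ((F : 𝔾 → Lp ℂ 2 μ) g) : ℂ) = (c₁ : ℂ) * 1 := by
    intro g
    have h1 : ‖(F : 𝔾 → Lp ℂ 2 μ) g‖ ^ 2 = c₁ := by
      rw [norm_sq82, hc₁, ← integral_mul_left_eq_self (μ := μ) (fun s => ‖w.w s‖ ^ 2) (geo.nb (geo.r g))]
      refine integral_congr_ae ?_
      filter_upwards [secK_apply μ (kapO (geo := geo) w.w w.cont w.inv w.bdd) hC hκ g] with s hs
      rw [hs]
      rfl
    rw [inner_self_eq_norm_sq_to_K, mul_one, ← h1]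
    push_cast
    rfl
  have hc₁0 : 0 < c₁ := by
    obtain ⟨s₀, hs₀⟩ := hwne
    refine Continuous.integral_pos_of_hasCompactSupport_nonneg_nonzero (x := s₀) (w.cont.norm.pow 2) ?_ (fun s => sq_nonneg _) ?_
    · refine HasCompactSupport.intro (K := tsupport w.w) hC fun s hs => ?_
      rw [image_eq_zero_of_notMem_tsupport hs]
      simp
    · exact pow_ne_zero 2 (norm_ne_zero_iff.2 hs₀)
  have hb1 : Bf geo (fun _ => 1) := ⟨continuous_const, fun _ _ _ => rfl, 1, fun _ => by simp⟩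
  have hnt : ∀ x : H, ‖tau B F x‖ ^ 2 = c₁ * ‖x‖ ^ 2 := by
    intro x
    have h1 := inner_tau B F F x x
    have h2 : (fun g => (inner ℂ ((F : 𝔾 → Lp ℂ 2 μ) g) ((F : 𝔾 → Lp ℂ 2 μ) g) : ℂ)) = fun _ => (c₁ : ℂ) * 1 := funext hFn
    rw [h2, B.Xi_apply, ContinuousLinearMap.adjoint_inner_right, B.E_smul (c₁ : ℂ) (fun _ => 1) hb1, B.E_one, inner_smul_right] at h1
    change (inner ℂ (tau B F x) (tau B F x) : ℂ) = (c₁ : ℂ) * inner ℂ (B.T x) (B.T x) at h1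
    rw [LinearIsometry.inner_map_map, inner_self_eq_norm_sq_to_K, inner_self_eq_norm_sq_to_K] at h1
    have h3 : ((‖tau B F x‖ ^ 2 : ℝ) : ℂ) = ((c₁ * ‖x‖ ^ 2 : ℝ) : ℂ) := by
      push_cast
      exact h1
    exact Complex.ofReal_injective h3
  obtain ⟨e, he, hout⟩ := out_small μ B (kapO (geo := geo) w.w w.cont w.inv w.bdd) hC hκ hw
    (show (0 : ℝ) < c₁ * (c₀ / 4) by positivity)
  refine ⟨e, he, fun x₀ hx₀ ι gp hgp R => ?_⟩
  -- the unit vector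
  set a : ℝ := (Real.sqrt c₁)⁻¹ with ha
  have ha2 : a ^ 2 = c₁⁻¹ := by rw [ha, inv_pow, Real.sq_sqrt hc₁0.le]
  have ha0 : 0 ≤ a := by positivity
  have hζ : ‖(a : ℂ) • tau B F x₀‖ = 1 := by
    have h1 : ‖(a : ℂ) • tau B F x₀‖ ^ 2 = 1 := by
      rw [norm_smul, mul_pow, Complex.norm_real, Real.norm_of_nonneg ha0, ha2, hnt, hx₀]
      field_simp
    have h2 := norm_nonneg ((a : ℂ) • tau B F x₀)
    nlinarith
  obtain ⟨R₁, hout⟩ := hout ι gp hgp R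
  obtain ⟨O, hO, hO1⟩ := exists_compact_mem_nhds (1 : 𝕊)
  obtain ⟨C₂, hC₂⟩ := hgp (O⁻¹ ∪ {1}) (hO.inv.union isCompact_singleton)
  set gp' : 𝕊 → ι → ℝ := fun h => gp h⁻¹ with hgp'
  obtain ⟨C₃, hC₃⟩ := size_gap (levOf μ B hQ hK) Gf hA hω hst hxJ hxI hc₀ hc hζ gp' (fun B₀ hB₀ => by
    obtain ⟨C, hC⟩ := hgp B₀⁻¹ hB₀.inv
    refine ⟨C, fun b hb b' hb' y k => ?_⟩
    have h1 := hC b'⁻¹ (Set.inv_mem_inv.2 hb') b⁻¹ (Set.inv_mem_inv.2 hb) y⁻¹ k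
    have h2 : b'⁻¹ * y⁻¹ * b⁻¹ = (b * y * b')⁻¹ := by group
    rw [h2] at h1
    exact h1) (R₁ + C₂)
  refine ⟨C₃, fun s g c hs hyp k => hC₃ s g c hs ?_ k⟩
  -- the density
  set ζ : Kt B (lam μ) := (a : ℂ) • tau B F x₀ with hζd
  have hV : (levOf μ B hQ hK).V s ζ = (a : ℂ) • tau B F (B.V s x₀) := by
    change Vt B (lam μ) s ζ = _
    rw [hζd, map_smul, Vt_apply, lift_tau B _ (B.cphi_V s)]
  have hsm : ∀ X : Set 𝕊, IsCompact X → (∀ h ∈ X, ∃ k, R₁ < |gp h⁻¹ k - c k|) → ∫ h in X, ‖cj ((levOf μ B hQ hK).W h) (aw μ B w) ((levOf μ B hQ hK).V s ζ)‖ ^ 2 ∂μ ≤ c₀ / 4 := by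
    intro X hX hXY
    have h1 := hout (B.V s x₀) c hyp X hX hXY
    have h2 : ∀ h, ‖cj ((levOf μ B hQ hK).W h) (aw μ B w) ((levOf μ B hQ hK).V s ζ)‖ ^ 2 = c₁⁻¹ * ‖aw μ B (w.tr h) (tau B F (B.V s x₀))‖ ^ 2 := by
      intro h
      change ‖cj (WW μ B h) (aw μ B w) ((levOf μ B hQ hK).V s ζ)‖ ^ 2 = _
      rw [cj_aw, hV, map_smul, norm_smul, mul_pow, Complex.norm_real, Real.norm_of_nonneg ha0, ha2]
    simp_rw [h2]
    rw [integral_const_mul]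
    calc c₁⁻¹ * ∫ h in X, ‖aw μ B (w.tr h) (tau B F (B.V s x₀))‖ ^ 2 ∂μ ≤ c₁⁻¹ * (c₁ * (c₀ / 4)) := by gcongr
      _ = c₀ / 4 := by field_simp
  set Y : Set 𝕊 := closure {h | ∃ k, R₁ + C₂ < |gp h⁻¹ k - c k|} with hY
  have hYR : ∀ h ∈ Y, ∃ k, R₁ < |gp h⁻¹ k - c k| := by
    intro h hh
    obtain ⟨h', hh', k, hk⟩ := mem_closure_iff_nhds.1 hh ((fun z => h⁻¹ * z) ⁻¹' O) (by
      refine (continuous_const_mul h⁻¹).continuousAt.preimage_mem_nhds ?_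
      rwa [inv_mul_cancel])
    refine ⟨k, ?_⟩
    have h1 := hC₂ (h⁻¹ * h')⁻¹ (Or.inl (Set.inv_mem_inv.2 hh')) 1 (Or.inr rfl) h⁻¹ k
    have h2 : (h⁻¹ * h')⁻¹ * h⁻¹ * 1 = h'⁻¹ := by group
    rw [h2] at h1
    have h3 := abs_sub_le (gp h'⁻¹ k) (gp h⁻¹ k) (c k)
    linarith
  have hYm : ∫ h in Y, ‖cj ((levOf μ B hQ hK).W h) (aw μ B w) ((levOf μ B hQ hK).V s ζ)‖ ^ 2 ∂μ ≤ c₀ / 4 := by
    refine le_of_forall_pos_le_add fun δ hδ => ?_
    obtain ⟨X', hX', hXX, hm⟩ := exists_cpt (levOf μ B hQ hK) hxI ((levOf μ B hQ hK).V s ζ) (isClosed_closure (s := {h | ∃ k, R₁ + C₂ < |gp h⁻¹ k - c k|})) hδ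
    have h1 := hsm X' hX' fun h hh => hYR h (hXX hh)
    linarith
  have hYc := integral_add_compl (isClosed_closure (s := {h | ∃ k, R₁ + C₂ < |gp h⁻¹ k - c k|})).measurableSet (sq_integrable (levOf μ B hQ hK) hxI ((levOf μ B hQ hK).V s ζ))
  rw [hc, LinearIsometryEquiv.norm_map, hζ, one_pow, mul_one] at hYc
  have hsub : Yᶜ ⊆ {h | ∀ k, |gp' h k - c k| ≤ R₁ + C₂} := by
    intro h hh k
    by_contra h0
    rw [not_le] at h0
    exact hh (subset_closure ⟨k, h0⟩)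
  have h1 : ∫ h in Yᶜ, ‖cj ((levOf μ B hQ hK).W h) (aw μ B w) ((levOf μ B hQ hK).V s ζ)‖ ^ 2 ∂μ ≤
      ∫ h in {h | ∀ k, |gp' h k - c k| ≤ R₁ + C₂}, ‖cj ((levOf μ B hQ hK).W h) (aw μ B w) ((levOf μ B hQ hK).V s ζ)‖ ^ 2 ∂μ :=
    setIntegral_mono_set (sq_integrable (levOf μ B hQ hK) hxI _).integrableOn (Eventually.of_forall fun h => sq_nonneg _) hsub.eventuallyLE
  change _ + ∫ h in Yᶜ, ‖cj ((levOf μ B hQ hK).W h) (aw μ B w) ((levOf μ B hQ hK).V s ζ)‖ ^ 2 ∂μ = c₀ at hYc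
  change ∫ h in Y, ‖cj ((levOf μ B hQ hK).W h) (aw μ B w) ((levOf μ B hQ hK).V s ζ)‖ ^ 2 ∂μ + _ = c₀ at hYc
  linarith

end J

end Pool.Agent.Helper95.FQ
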