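import Pool.Agent.Helper8.EQ.Tau
import Pool.Agent.Helper95.FQ.Mod5

/-!
# Project FQ (MP_0f6f3f_an), layer EQ: the homomorphism `τ` with its sizes
-/

set_option autoImplicit false
set_option linter.unusedSectionVars false

open Filter Topology MeasureTheory

namespace Pool.Agent.Helper95.FQ

open Pool.Agent.Helper35.FP
open Pool.Agent.Helper43.TZ (cj cj_apply Lev Siz PP)
open Pool.Agent.Helper8.EQ (Pack exists_tau)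

variable {𝔾 𝕊 : Type} [Group 𝔾] [TopologicalSpace 𝔾] [IsTopologicalGroup 𝔾] [Group 𝕊] [TopologicalSpace 𝕊] [IsTopologicalGroup 𝕊]
  {𝕂 : Subgroup 𝕊} {geo : Geo 𝔾 𝕊 𝕂} {G S' H U : Type} [Group G] [Group S'] [TopologicalSpace S'] [IsTopologicalGroup S']
  [NormedAddCommGroup H] [InnerProductSpace ℂ H] [CompleteSpace H]
  [NormedAddCommGroup U] [InnerProductSpace ℂ U] [CompleteSpace U]

variable [MeasurableSpace 𝕊] [BorelSpace 𝕊]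
  [SecondCountableTopology 𝕊] [LocallyCompactSpace 𝕊] [T2Space 𝕊] (μ : Measure 𝕊) [μ.IsHaarMeasure] [μ.IsMulRightInvariant]
  (B : BD geo G S' H U) [LocallyCompactSpace 𝔾] [T2Space 𝔾] (hQ : IsClosed (geo.Q : Set 𝔾)) (hK : IsCompact (𝕂 : Set 𝕊))

/-- **The homomorphism `τ` and the sizes of its values.** -/
theorem exists_tau_size (z : Siz 𝕊 μ) (hP : Pack z) (F : Pool.Agent.Helper43.TZ.Fam S') (hd : z.d = F.d1) (m : ℕ)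
    (hpp : ∀ t ∈ F.Sg, ∀ N : Subgroup S', N.Normal → t ∈ N → ∀ k : ℕ, ∃ s : Fin k → S', (∀ i, s i ∈ N) ∧ Nonempty (PP (levOf μ B hQ hK) m k s))
    (hloc : ∃ B : Set S', IsCompact B ∧ B ∈ 𝓝 (1 : S')) :
    ∃ τ : S' →* 𝕊, Continuous τ ∧ (∀ s, τ s = 1 → s ∈ (levOf μ B hQ hK).ker) ∧
      ∃ e : ℝ, 0 < e ∧ ∀ (x₀ : H), ‖x₀‖ = 1 → ∀ (ι : Type) (gp : 𝕊 → ι → ℝ),
        (∀ B : Set 𝕊, IsCompact B → ∃ C : ℝ, ∀ b ∈ B, ∀ b' ∈ B, ∀ y k, |gp (b * y * b') k - gp y k| ≤ C) → ∀ R : ℝ,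
        ∃ C : ℝ, ∀ (s : S') (c : ι → ℝ),
          (∀ f : 𝔾 → ℂ, Bf geo f → (∀ g, ‖f g‖ ≤ 1) → (∀ g, (∀ k, |gp (geo.nb (geo.r g))⁻¹ k - c k| ≤ R) → f g = 0) →
            ‖B.E f (B.T (B.V s x₀))‖ ≤ e) → ∀ k, |gp (τ s) k - c k| ≤ C := by
  obtain ⟨τ, hτc, hτk, Ω, i1, i2, i3, Gf, ω, hω, hτ, hst⟩ := exists_tau (levOf μ B hQ hK) z hP F hd m hpp hloc
  obtain ⟨e, he, h⟩ := eq5 μ B hQ hK Gf (fun a ha => ha.1) hω hst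
  refine ⟨τ, hτc, hτk, e, he, fun x₀ hx₀ ι gp hgp R => ?_⟩
  obtain ⟨C, h⟩ := h x₀ hx₀ ι gp hgp R
  refine ⟨C, fun s c hyp k => ?_⟩
  have h1 := h s (τ s)⁻¹ c (hτ s) hyp k
  rwa [inv_inv] at h1

end Pool.Agent.Helper95.FQ
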