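import Pool.Agent.Helper77.FQ.Rho
import Pool.Agent.Helper77.FQ.Cow

/-!
# Project FQ (MP_0f6f3f_an), root data: the weight of the block `n_j`

`nF b hA al W j`: the roots with positive `al j`-coefficient, `om .. j = ∑_{φ ∈ nF j} dim g_φ • φ = ∑ i, omc j i • al i`. `om_cor`: it vanishes on the coroots `≠ j`; `om_cor_ne`: it does not vanish on the coroot `j`.
These are the hypotheses `hβ`, `hβ0` of `hC_of_scale` with `β = omc`.
-/

set_option autoImplicit false
set_option linter.unusedSectionVars false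

namespace Pool.Agent.Helper95.FQ

open Pool.Agent.Helper96.SA Pool.Agent.Helper96.TO Pool.Agent.Helper69.SLN Pool.Agent.Helper77.LA Pool.Agent.Helper77.AE
  Pool.Agent.Helper77.TZ2 Pool.Agent.Helper77.ST Pool.Agent.Helper77.FQ Pool.Agent.Helper25.AE

variable {L : Type} [LieRing L] [LieAlgebra ℝ L] {N : ℕ} {θ : L ≃ₗ⁅ℝ⁆ L} {b : Module.Basis (Fin N) ℝ L} {A : Submodule ℝ L}
  {τ : Module.Dual ℝ A ≃ₗ[ℝ] A} {ι : Type} [Fintype ι] [DecidableEq ι] {al : ι → Module.Dual ℝ A}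

open Classical in
/-- The roots with positive `al j`-coefficient. -/
noncomputable def nF (b : Module.Basis (Fin N) ℝ L) (hA : MaxFlat θ A) (al : ι → Module.Dual ℝ A) (W : ι → A) (j : ι) : Finset (Module.Dual ℝ A) :=
  (posF b hA al).filter fun φ => 0 < φ (W j)

/-- The weight of the block `n_j`. -/
noncomputable def om (b : Module.Basis (Fin N) ℝ L) (hA : MaxFlat θ A) (al : ι → Module.Dual ℝ A) (W : ι → A) (j : ι) : Module.Dual ℝ A :=
  ∑ φ ∈ nF b hA al W j, (Module.finrank ℝ (rsp A φ) : ℝ) • φ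

/-- Its coordinates. -/
noncomputable def omc (b : Module.Basis (Fin N) ℝ L) (hA : MaxFlat θ A) (al : ι → Module.Dual ℝ A) (W : ι → A) (j i : ι) : ℝ := om b hA al W j (W i)

theorem mem_nF (b : Module.Basis (Fin N) ℝ L) (hA : MaxFlat θ A) {W : ι → A} {j : ι} {φ : Module.Dual ℝ A} :
    φ ∈ nF b hA al W j ↔ (φ ∈ rootsL A ∧ PosC al φ) ∧ 0 < φ (W j) := by
  rw [nF, Finset.mem_filter, mem_posF]

theorem om_apply (b : Module.Basis (Fin N) ℝ L) (hA : MaxFlat θ A) (W : ι → A) (j : ι) (H : A) :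
    om b hA al W j H = ∑ φ ∈ nF b hA al W j, (Module.finrank ℝ (rsp A φ) : ℝ) * φ H := by
  rw [om, LinearMap.sum_apply]
  exact Finset.sum_congr rfl fun φ _ => by rw [LinearMap.smul_apply, smul_eq_mul]

/-- A functional in coordinates. -/
theorem eq_coord {W : ι → A} (hW' : ∀ H : A, H = ∑ i, al i H • W i) (φ : Module.Dual ℝ A) (H : A) : φ H = ∑ i, φ (W i) * al i H := by
  conv_lhs => rw [hW' H]
  rw [map_sum]
  exact Finset.sum_congr rfl fun i _ => by rw [map_smul, smul_eq_mul, mul_comm]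

theorem om_eq (b : Module.Basis (Fin N) ℝ L) (hA : MaxFlat θ A) {W : ι → A} (hW' : ∀ H : A, H = ∑ i, al i H • W i) (j : ι) (H : A) :
    om b hA al W j H = ∑ i, omc b hA al W j i * al i H := eq_coord hW' _ H

/-- **The weight of the block vanishes on the other coroots.** -/
theorem om_cor [LieAlgebra.IsSimple ℝ L] (s : SD θ b A τ al) (hp : ∀ φ ∈ rootsL A, ∃ c : ι → ℕ, φ = ∑ i, (c i : ℝ) • al i ∨ φ = -∑ i, (c i : ℝ) • al i)
    {W : ι → A} (hW : ∀ i j, al i (W j) = if i = j then 1 else 0) {j k : ι} (hjk : k ≠ j) : om b s.hA al W j (τ (al k)) = 0 := by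
  rw [om_apply]
  -- stability
  have hval : ∀ (φ : Module.Dual ℝ A) (s : ℝ), (φ + s • al k) (W j) = φ (W j) := by
    intro φ s
    rw [LinearMap.add_apply, LinearMap.smul_apply, hW, if_neg hjk, smul_zero, add_zero]
  have hneg : ∀ c : ι → ℕ, 0 ≤ (∑ i, (c i : ℝ) • al i) (W j) := by
    intro c
    rw [LinearMap.sum_apply]
    refine Finset.sum_nonneg fun i _ => ?_
    rw [LinearMap.smul_apply, hW, smul_eq_mul]
    split_ifs <;> simp
  have hstab : ∀ t : ℝ, ∀ φ ∈ nF b s.hA al W j, φ + t • al k ∈ nF b s.hA al W j ∨ rsp A (φ + t • al k) = ⊥ := by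
    intro t φ hφ
    obtain ⟨-, h1⟩ := (mem_nF b s.hA).1 hφ
    by_cases h2 : φ + t • al k ∈ rootsL A
    · left
      refine (mem_nF b s.hA).2 ⟨⟨h2, ?_⟩, by rw [hval]; exact h1⟩
      obtain ⟨c, hc | hc⟩ := hp _ h2
      · exact ⟨c, hc⟩
      · exfalso
        have h3 := hval φ t
        rw [hc, LinearMap.neg_apply] at h3
        have := hneg c
        linarith
    · right
      refine rsp_bot (fun h3 => ?_) h2
      have h4 := hval φ t
      rw [h3, LinearMap.zero_apply] at h4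
      rw [← h4] at h1
      exact lt_irrefl _ h1
  obtain ⟨-, x, hx0, hx⟩ := s.hS.root k
  have hxy : ⁅x, θ x⁆ = ((killingForm ℝ L x (θ x) • τ (al k) : A) : L) := by
    rw [lie_theta_self s.hτ s.h s.hA hx]
    rfl
  have h3 := trace_zero s.h s.hA (χ := al k) (S := nF b s.hA al W j) hx (Wv.theta s.hA hx) hxy (fun φ hφ => by
      have := hstab 1 φ hφ
      rwa [one_smul] at this) (fun φ hφ => by
      have := hstab (-1) φ hφ
      rw [show (-1 : ℝ) • al k = -al k from neg_one_smul ℝ (al k), ← sub_eq_add_neg] at this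
      exact this)
  have hκ : killingForm ℝ L x (θ x) ≠ 0 := by
    have := pos s.h hx0
    intro h4
    rw [h4, neg_zero] at this
    exact lt_irrefl _ this
  have e1 : ∑ φ ∈ nF b s.hA al W j, (Module.finrank ℝ (rsp A φ) : ℝ) * φ (killingForm ℝ L x (θ x) • τ (al k)) =
      killingForm ℝ L x (θ x) * ∑ φ ∈ nF b s.hA al W j, (Module.finrank ℝ (rsp A φ) : ℝ) * φ (τ (al k)) := by
    rw [Finset.mul_sum]
    refine Finset.sum_congr rfl fun φ _ => ?_
    rw [map_smul, smul_eq_mul]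
    ring
  rw [e1] at h3
  exact (mul_eq_zero.1 h3).resolve_left hκ

theorem om_W_pos (b : Module.Basis (Fin N) ℝ L) (hA : MaxFlat θ A) (hr : ∀ i, al i ∈ rootsL A) {W : ι → A}
    (hW : ∀ i j, al i (W j) = if i = j then 1 else 0) (j : ι) : 0 < om b hA al W j (W j) := by
  have hF : Module.Finite ℝ L := Module.Finite.of_basis b
  rw [om_apply]
  have h1 : al j ∈ nF b hA al W j := by
    refine (mem_nF b hA).2 ⟨⟨hr j, fun k => if k = j then 1 else 0, ?_⟩, by rw [hW, if_pos rfl]; exact one_pos⟩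
    rw [Finset.sum_eq_single j]
    · simp
    · intro k _ hk
      simp [hk]
    · intro h2
      exact absurd (Finset.mem_univ _) h2
  have h2 : ∀ φ ∈ nF b hA al W j, 0 ≤ (Module.finrank ℝ (rsp A φ) : ℝ) * φ (W j) := fun φ hφ =>
    mul_nonneg (Nat.cast_nonneg _) ((mem_nF b hA).1 hφ).2.le
  refine lt_of_lt_of_le ?_ (Finset.single_le_sum h2 h1)
  rw [hW, if_pos rfl, mul_one]
  obtain ⟨-, x, hx0, hx⟩ := hr j
  have h3 : rsp A (al j) ≠ ⊥ := by
    intro h4
    have h5 : x ∈ rsp A (al j) := hx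
    rw [h4, Submodule.mem_bot] at h5
    exact hx0 h5
  have h4 : 0 < Module.finrank ℝ (rsp A (al j)) := by
    rw [Nat.pos_iff_ne_zero]
    exact fun h5 => h3 (Submodule.finrank_eq_zero.1 h5)
  exact_mod_cast h4

theorem om_cor_ne [LieAlgebra.IsSimple ℝ L] (s : SD θ b A τ al)
    (hp : ∀ φ ∈ rootsL A, ∃ c : ι → ℕ, φ = ∑ i, (c i : ℝ) • al i ∨ φ = -∑ i, (c i : ℝ) • al i)
    {W : ι → A} (hW : ∀ i j, al i (W j) = if i = j then 1 else 0) (j : ι) :
    om b s.hA al W j (τ (al j)) ≠ 0 := by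
  intro h0
  have h1 : ∀ k, om b s.hA al W j (τ (al k)) = 0 := fun k => by
    by_cases hk : k = j
    · rw [hk, h0]
    · exact om_cor s hp hW hk
  -- the symmetric form
  have h2 : ∀ k, al k (τ (om b s.hA al W j)) = 0 := fun k => by rw [tau_symm s.hτ, h1]
  have h3 : τ (om b s.hA al W j) = 0 := eq_zero_of_al s.h s.hS h2
  have h4 : om b s.hA al W j = 0 := τ.map_eq_zero_iff.1 h3
  have h5 := om_W_pos b s.hA s.hS.root hW j
  rw [h4, LinearMap.zero_apply] at h5
  exact lt_irrefl _ h5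

/-- The hypotheses `hβ`, `hβ0` of `hC_of_scale`. -/
theorem omc_cor [LieAlgebra.IsSimple ℝ L] (s : SD θ b A τ al)
    (hp : ∀ φ ∈ rootsL A, ∃ c : ι → ℕ, φ = ∑ i, (c i : ℝ) • al i ∨ φ = -∑ i, (c i : ℝ) • al i)
    {W : ι → A} (hW : ∀ i j, al i (W j) = if i = j then 1 else 0) (hW' : ∀ H : A, H = ∑ i, al i H • W i) :
    (∀ j k, k ≠ j → ∑ i, omc b s.hA al W j i * al i (τ (al k)) = 0) ∧ ∀ j, ∑ i, omc b s.hA al W j i * al i (τ (al j)) ≠ 0 :=
  ⟨fun j k hk => by rw [← om_eq b s.hA hW', om_cor s hp hW hk], fun j => by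
    rw [← om_eq b s.hA hW']
    exact om_cor_ne s hp hW j⟩

end Pool.Agent.Helper95.FQ
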